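import Pool.Agent.Lib.MP_e864e9_lc.Model

/-!
# The two `P`-spaces whose product is not a `P`-space
-/

set_option autoImplicit false

namespace Pool.Agent.Lib.MP_e864e9_lc

open HS

/-- Bound of a finite support inside a block. -/
theorem exists_bound (d : Bool) (E : Set (ℕ × ℚ)) (hE : E.Finite) (n : ℕ) :
    ∃ q, ∀ a ∈ E, a.1 = n → lt' d a.2 q := by
  obtain ⟨q, hq⟩ := exists_lt'_finset d (hE.toFinset.image Prod.snd)
  exact ⟨q, fun a ha _ => hq _ (Finset.mem_image_of_mem _ (hE.mem_toFinset.2 ha))⟩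

theorem lt'_irrefl {d : Bool} {x : ℚ} : ¬ lt' d x x := by
  cases d
  · exact lt_irrefl x
  · exact lt_irrefl x

/-- The basic lemma: if `W` is fixed by the pointwise stabilizer of `E`, and `W` contains all atoms
of the block `n` far enough in the direction `d`, then it contains all atoms of the block `n`
beyond `q` as soon as no element of `E` in the block `n` is beyond `q`. -/
theorem mem_of_beyond {d : Bool} {E : Set (ℕ × ℚ)} {W : Model} {n : ℕ} {q q' r : ℚ}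
    (hW : ∀ g ∈ fixingSubgroup blockGroup E, g • W = W)
    (hE : ∀ a ∈ E, a.1 = n → ¬ lt' d q a.2)
    (hq' : ∀ r, lt' d q' r → atom blockFilter (n, r) ∈ W)
    (hr : lt' d q r) : atom blockFilter (n, r) ∈ W := by
  obtain ⟨r', h1, h2⟩ := exists_lt'_both d q q'
  obtain ⟨g, hg1, hg2⟩ := exists_move d n q r r' hr h1
  have hg : g ∈ fixingSubgroup blockGroup E := by
    rw [mem_fixingSubgroup_iff]
    intro a ha
    exact hg1 a fun h => hE a ha h.1 h.2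
  have h3 : g • atom blockFilter (n, r') ∈ g • W := (smul_mem_smul_iff g).2 (hq' r' h2)
  rw [hW g hg, smul_atom, hg2] at h3
  exact h3

section

variable {e : Model} (he : IsEmptySet e)

/-- The condition defining the neighbourhoods of the point at infinity `e`. -/
def Cond (e : Model) (d : Bool) (W : Model) : Prop :=
  e ∈ W → ∀ n : ℕ, ∃ q : ℚ, ∀ r : ℚ, lt' d q r → atom blockFilter (n, r) ∈ W

theorem smul_atom_block (g : blockGroup) (a : ℕ × ℚ) :
    g • atom blockFilter a = atom blockFilter (a.1, ((g : Equiv.Perm (ℕ × ℚ)) a).2) := by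
  rw [smul_atom]
  congr 1
  exact Prod.ext (g.2.1 a) rfl

include he in
theorem Cond.smul {d : Bool} {W : Model} (h : Cond e d W) (g : blockGroup) : Cond e d (g • W) := by
  intro h1 n
  rw [mem_smul_iff, IsEmptySet.smul _ he] at h1
  obtain ⟨q, hq⟩ := h h1 n
  refine ⟨((g : Equiv.Perm (ℕ × ℚ)) (n, q)).2, fun r hr => ?_⟩
  rw [mem_smul_iff, smul_atom_block]
  apply hq
  have hg : ((g : Equiv.Perm (ℕ × ℚ)) (n, q)).1 = n := g.2.1 (n, q)
  have h2 : ∀ x y : ℚ, lt' d x y ↔ lt' d (((g⁻¹ : blockGroup) : Equiv.Perm (ℕ × ℚ)) (n, x)).2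
      (((g⁻¹ : blockGroup) : Equiv.Perm (ℕ × ℚ)) (n, y)).2 := by
    intro x y
    cases d
    · exact (g⁻¹).2.2 (n, y) (n, x) rfl
    · exact (g⁻¹).2.2 (n, x) (n, y) rfl
  rw [h2] at hr
  have h3 : ((g⁻¹ : blockGroup) : Equiv.Perm (ℕ × ℚ)) (n, ((g : Equiv.Perm (ℕ × ℚ)) (n, q)).2) =
      (n, q) := by
    have h4 : ((n, ((g : Equiv.Perm (ℕ × ℚ)) (n, q)).2) : ℕ × ℚ) =
        (g : Equiv.Perm (ℕ × ℚ)) (n, q) := Prod.ext hg.symm rfl
    rw [h4]
    exact Equiv.symm_apply_apply (g : Equiv.Perm (ℕ × ℚ)) (n, q)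
  rw [h3] at hr
  exact hr

include he in
/-- The underlying set of both spaces: the empty set (the point at infinity) and the atoms. -/
theorem exists_X : ∃ X : Model, IsSet X ∧
    (∀ z : Model, z ∈ X ↔ z = e ∨ ∃ a, z = atom blockFilter a) ∧ ∀ g : blockGroup, g • X = X := by
  have hinv : ∀ g : blockGroup, ∀ i : Option (ℕ × ℚ), ∃ j : Option (ℕ × ℚ),
      g • (i.elim e (atom blockFilter)) = j.elim e (atom blockFilter) := by
    intro g i
    cases i with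
    | none => exact ⟨none, IsEmptySet.smul g he⟩
    | some a => exact ⟨some ((g : Equiv.Perm (ℕ × ℚ)) a), rfl⟩
  obtain ⟨X, hX, h⟩ := exists_fam (F := blockFilter)
    (fun i : Option (ℕ × ℚ) => i.elim e (atom blockFilter)) blockFilter.top_mem
    (fun g _ i => hinv g i)
  have h' : ∀ z : Model, z ∈ X ↔ z = e ∨ ∃ a, z = atom blockFilter a := by
    intro z
    rw [h]
    constructor
    · rintro ⟨i, rfl⟩
      cases i with
      | none => exact Or.inl rfl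
      | some a => exact Or.inr ⟨a, rfl⟩
    · rintro (rfl | ⟨a, rfl⟩)
      · exact ⟨none, rfl⟩
      · exact ⟨some a, rfl⟩
  refine ⟨X, hX, h', fun g => ?_⟩
  apply ext' (fun h' => hX ((isAtom_smul_iff g).1 h')) hX
  intro z
  rw [mem_smul_iff, h', h', inv_smul_eq_iff, IsEmptySet.smul g he]
  refine or_congr Iff.rfl ⟨?_, ?_⟩
  · rintro ⟨a, ha⟩
    rw [inv_smul_eq_iff, smul_atom] at ha
    exact ⟨_, ha⟩
  · rintro ⟨a, rfl⟩
    exact ⟨_, smul_atom _ _⟩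

end

/-- The point at infinity. -/
noncomputable def e0 : Model := (exists_empty blockFilter).choose

theorem e0_spec : IsEmptySet e0 := (exists_empty blockFilter).choose_spec

theorem smul_e0 (g : blockGroup) : g • e0 = e0 := IsEmptySet.smul g e0_spec

theorem atom_ne_e0 (a : ℕ × ℚ) : atom blockFilter a ≠ e0 := fun h =>
  e0_spec.1 (h ▸ isAtom_atom a)

/-- The underlying set of both spaces. -/
noncomputable def X0 : Model := (exists_X e0_spec).choose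

theorem isSet_X0 : IsSet X0 := (exists_X e0_spec).choose_spec.1

theorem mem_X0 {z : Model} : z ∈ X0 ↔ z = e0 ∨ ∃ a, z = atom blockFilter a :=
  (exists_X e0_spec).choose_spec.2.1 z

theorem smul_X0 (g : blockGroup) : g • X0 = X0 := (exists_X e0_spec).choose_spec.2.2 g

theorem e0_mem_X0 : e0 ∈ X0 := mem_X0.2 (Or.inl rfl)

theorem atom_mem_X0 (a : ℕ × ℚ) : atom blockFilter a ∈ X0 := mem_X0.2 (Or.inr ⟨a, rfl⟩)

theorem exists_T (d : Bool) : ∃ t : Model, IsSet t ∧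
    (∀ W : Model, W ∈ t ↔ Sub W X0 ∧ Cond e0 d W) ∧ ∀ g : blockGroup, g • t = t := by
  have hinv : ∀ g : blockGroup, ∀ W : Model, Sub W X0 ∧ Cond e0 d W →
      Sub (g • W) X0 ∧ Cond e0 d (g • W) := by
    rintro g W ⟨⟨h1, h2⟩, h3⟩
    refine ⟨⟨fun h' => h1 ((isAtom_smul_iff g).1 h'), fun z hz => ?_⟩, h3.smul e0_spec g⟩
    rw [mem_smul_iff] at hz
    have := (smul_mem_smul_iff g).2 (h2 _ hz)
    rwa [smul_inv_smul, smul_X0] at this
  have := small_subset X0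
  obtain ⟨t, ht, h⟩ := comp (F := blockFilter) {W | Sub W X0 ∧ Cond e0 d W}
    (small_of_injective (f := fun z : {W : Model | Sub W X0 ∧ Cond e0 d W} =>
      (⟨z.1, z.2.1⟩ : {z : Model | ¬ MemStr.IsAtom z ∧ ∀ w, w ∈ z → w ∈ X0})) (by
        intro z w h
        exact Subtype.ext (congrArg
          (fun t : {z : Model | ¬ MemStr.IsAtom z ∧ ∀ w, w ∈ z → w ∈ X0} => t.1) h)))
    blockFilter.top_mem (fun g _ W hW => hinv g W hW)
  refine ⟨t, ht, h, fun g => ?_⟩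
  apply ext' (fun h' => ht ((isAtom_smul_iff g).1 h')) ht
  intro z
  rw [mem_smul_iff, h, h]
  refine ⟨fun hz => ?_, fun hz => hinv _ _ hz⟩
  have := hinv g _ hz
  rwa [smul_inv_smul] at this

/-- The topology in the direction `d`. -/
noncomputable def T0 (d : Bool) : Model := (exists_T d).choose

theorem isSet_T0 (d : Bool) : IsSet (T0 d) := (exists_T d).choose_spec.1

theorem mem_T0 {d : Bool} {W : Model} : W ∈ T0 d ↔ Sub W X0 ∧ Cond e0 d W :=
  (exists_T d).choose_spec.2.1 W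

theorem smul_T0 (d : Bool) (g : blockGroup) : g • T0 d = T0 d := (exists_T d).choose_spec.2.2 g

/-- It is a topology. -/
theorem isTopology_T0 (d : Bool) : IsTopology X0 (T0 d) := by
  refine ⟨isSet_X0, isSet_T0 d, fun U hU => (mem_T0.1 hU).1, ⟨e0, ?_, e0_spec⟩, ?_, ?_, ?_⟩
  · exact mem_T0.2 ⟨⟨e0_spec.1, fun z hz => (e0_spec.2 z hz).elim⟩,
      fun h => (e0_spec.2 _ h).elim⟩
  · exact mem_T0.2 ⟨⟨isSet_X0, fun z hz => hz⟩, fun _ n => ⟨0, fun r _ => atom_mem_X0 _⟩⟩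
  · intro U hU V hV
    rw [mem_T0] at hU hV
    obtain ⟨W, hW, h⟩ := sep U (fun z => z ∈ V) (stab_mem V) (by
      intro g hg z hz
      have hg : g • V = V := hg
      rw [← hg, smul_mem_smul_iff]
      exact hz)
    refine ⟨W, mem_T0.2 ⟨⟨hW, fun z hz => hU.1.2 z ((h z).1 hz).1⟩, fun he n => ?_⟩, h⟩
    obtain ⟨q1, hq1⟩ := hU.2 ((h _).1 he).1 n
    obtain ⟨q2, hq2⟩ := hV.2 ((h _).1 he).2 n
    obtain ⟨q, h1, h2⟩ := exists_lt'_both d q1 q2
    exact ⟨q, fun r hr => (h _).2 ⟨hq1 r (lt'_trans h1 hr), hq2 r (lt'_trans h2 hr)⟩⟩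
  · intro S hS
    obtain ⟨W, hW, h⟩ := sep X0 (fun z => ∃ U ∈ S, z ∈ U) (stab_mem S) (by
      rintro g hg z ⟨U, hU, hz⟩
      have hg : g • S = S := hg
      refine ⟨g • U, ?_, (smul_mem_smul_iff g).2 hz⟩
      rw [← hg, smul_mem_smul_iff]
      exact hU)
    have h' : ∀ z : Model, z ∈ W ↔ ∃ U ∈ S, z ∈ U := fun z =>
      (h z).trans ⟨fun h => h.2, fun hz => ⟨by
        obtain ⟨U, hU, hzU⟩ := hz
        exact (mem_T0.1 (hS.2 U hU)).1.2 z hzU, hz⟩⟩
    refine ⟨W, mem_T0.2 ⟨⟨hW, fun z hz => ((h z).1 hz).1⟩, fun he n => ?_⟩, h'⟩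
    obtain ⟨U, hU, heU⟩ := (h' _).1 he
    obtain ⟨q, hq⟩ := (mem_T0.1 (hS.2 U hU)).2 heU n
    exact ⟨q, fun r hr => (h' _).2 ⟨U, hU, hq r hr⟩⟩

/-- Singletons of atoms are open. -/
theorem exists_singleton (d : Bool) (a : ℕ × ℚ) :
    ∃ V ∈ T0 d, ∀ z : Model, z ∈ V ↔ z = atom blockFilter a := by
  obtain ⟨V, hV⟩ := exists_upair (atom blockFilter a) (atom blockFilter a)
  have h : ∀ z : Model, z ∈ V ↔ z = atom blockFilter a := fun z => (hV.2 z).trans (or_self_iff)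
  refine ⟨V, mem_T0.2 ⟨⟨hV.1, fun z hz => ?_⟩, fun he n => ?_⟩, h⟩
  · rw [h] at hz
    rw [hz]
    exact atom_mem_X0 a
  · exact absurd ((h _).1 he).symm (atom_ne_e0 a)

/-- The members of a family which is countable in the model have a common finite support. -/
theorem common_support {S : Model} (hS : IsCountable S) :
    ∃ E : Set (ℕ × ℚ), E.Finite ∧ ∀ U ∈ S, ∀ g ∈ fixingSubgroup blockGroup E, g • U = U := by
  obtain ⟨w, s, f, hw, hs, hf⟩ := hS
  obtain ⟨E, hE, hEf⟩ := stab_mem f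
  refine ⟨E, hE, fun U hU g hg => ?_⟩
  have hgf : g • f = f := hEf hg
  obtain ⟨b, ⟨p, hp, hpb⟩, -⟩ := hf.2.2.1 U hU
  obtain ⟨a', -, b', hb', hpb'⟩ := hf.2.1 p hp
  obtain ⟨rfl, rfl⟩ := IsOPair.eq hpb hpb'
  obtain ⟨a, -, ha⟩ := hf.2.2.2 b hb'
  have hgb : g • b = b := smul_of_mem_omega hw (hs.2 b hb') g
  have h1 : U = a := ha U ⟨p, hp, hpb⟩
  have h2 : g • U = a := ha (g • U) ⟨g • p, by
    rw [← hgf, smul_mem_smul_iff]; exact hp, by
    have := IsOPair.smul g hpb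
    rwa [hgb] at this⟩
  rw [h2, h1]

/-- Both spaces are `P`-spaces. -/
theorem isPSpace_T0 (d : Bool) : IsPSpace X0 (T0 d) := by
  refine ⟨isTopology_T0 d, fun x hx g hg hxg => ?_⟩
  obtain ⟨hgs, S, hST, ⟨U₀, hU₀⟩, hSc, hgS⟩ := hg
  rcases mem_X0.1 hx with rfl | ⟨a, rfl⟩
  · refine ⟨g, mem_T0.2 ⟨⟨hgs, fun z hz => ?_⟩, fun _ n => ?_⟩, hxg, ⟨hgs, fun z hz => hz⟩⟩
    · exact (mem_T0.1 (hST.2 U₀ hU₀)).1.2 z ((hgS z).1 hz U₀ hU₀)
    · obtain ⟨E, hE, hES⟩ := common_support hSc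
      obtain ⟨q, hq⟩ := exists_bound d E hE n
      refine ⟨q, fun r hr => (hgS _).2 fun U hU => ?_⟩
      obtain ⟨q', hq'⟩ := (mem_T0.1 (hST.2 U hU)).2 ((hgS _).1 hxg U hU) n
      exact mem_of_beyond (hES U hU) (fun a ha han h => lt'_irrefl (lt'_trans (hq a ha han) h))
        hq' hr
  · obtain ⟨V, hV, h⟩ := exists_singleton d a
    refine ⟨V, hV, (h _).2 rfl, (mem_T0.1 hV).1.1, fun z hz => ?_⟩
    rw [(h z).1 hz]
    exact hxg

/-- Open neighbourhoods of the point at infinity given by invariant predicates. -/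
theorem exists_nhd (d : Bool) (P : ℕ × ℚ → Prop) (E : Set (ℕ × ℚ)) (hE : E.Finite)
    (hinv : ∀ g : blockGroup, g ∈ fixingSubgroup blockGroup E → ∀ a, P a →
      P ((g : Equiv.Perm (ℕ × ℚ)) a))
    (hP : ∀ n : ℕ, ∃ q : ℚ, ∀ r : ℚ, lt' d q r → P (n, r)) :
    ∃ V ∈ T0 d, ∀ z : Model, z ∈ V ↔ z = e0 ∨ ∃ a, P a ∧ z = atom blockFilter a := by
  obtain ⟨V, hV, h⟩ := sep X0 (fun z => z = e0 ∨ ∃ a, P a ∧ z = atom blockFilter a)
    (H := fixingSubgroup blockGroup E) ⟨E, hE, le_rfl⟩ (by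
      rintro g hg z (rfl | ⟨a, ha, rfl⟩)
      · exact Or.inl (smul_e0 g)
      · exact Or.inr ⟨_, hinv g hg a ha, smul_atom _ _⟩)
  have h' : ∀ z : Model, z ∈ V ↔ z = e0 ∨ ∃ a, P a ∧ z = atom blockFilter a := by
    intro z
    refine (h z).trans ⟨fun h => h.2, fun hz => ⟨?_, hz⟩⟩
    rcases hz with rfl | ⟨a, -, rfl⟩
    · exact e0_mem_X0
    · exact atom_mem_X0 a
  refine ⟨V, mem_T0.2 ⟨⟨hV, fun z hz => ((h z).1 hz).1⟩, fun _ n => ?_⟩, h'⟩
  obtain ⟨q, hq⟩ := hP n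
  exact ⟨q, fun r hr => (h' _).2 (Or.inr ⟨_, hq r hr, rfl⟩)⟩

/-- The underlying set of the product. -/
noncomputable def Z0 : Model := (exists_prod X0 X0).choose

theorem isProd_Z0 : IsProd Z0 X0 X0 := (exists_prod X0 X0).choose_spec

theorem mem_Z0 {p : Model} : p ∈ Z0 ↔ ∃ x ∈ X0, ∃ y ∈ X0, p = opair x y := by
  rw [isProd_Z0.2]
  simp only [isOPair_iff]

theorem smul_Z0 (g : blockGroup) : g • Z0 = Z0 := by
  apply ext' (fun h' => isProd_Z0.1 ((isAtom_smul_iff g).1 h')) isProd_Z0.1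
  intro z
  rw [mem_smul_iff, mem_Z0, mem_Z0]
  constructor
  · rintro ⟨x, hx, y, hy, h⟩
    rw [inv_smul_eq_iff, smul_opair] at h
    refine ⟨g • x, ?_, g • y, ?_, h⟩
    · rw [← smul_X0 g, smul_mem_smul_iff]; exact hx
    · rw [← smul_X0 g, smul_mem_smul_iff]; exact hy
  · rintro ⟨x, hx, y, hy, h⟩
    refine ⟨g⁻¹ • x, ?_, g⁻¹ • y, ?_, ?_⟩
    · rw [← smul_X0 g⁻¹, smul_mem_smul_iff]; exact hx
    · rw [← smul_X0 g⁻¹, smul_mem_smul_iff]; exact hy
    · rw [h, smul_opair]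

theorem IsProd.smul (g : blockGroup) {B U V : Model} (h : IsProd B U V) :
    IsProd (g • B) (g • U) (g • V) := by
  refine ⟨fun h' => h.1 ((isAtom_smul_iff g).1 h'), fun p => ?_⟩
  rw [mem_smul_iff, h.2]
  simp only [isOPair_iff]
  constructor
  · rintro ⟨x, hx, y, hy, h⟩
    rw [inv_smul_eq_iff, smul_opair] at h
    exact ⟨g • x, (smul_mem_smul_iff g).2 hx, g • y, (smul_mem_smul_iff g).2 hy, h⟩
  · rintro ⟨x, hx, y, hy, h⟩
    rw [mem_smul_iff] at hx hy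
    exact ⟨g⁻¹ • x, hx, g⁻¹ • y, hy, by rw [h, smul_opair]⟩

/-- Being open in the product. -/
def OpenZ (W : Model) : Prop :=
  Sub W Z0 ∧ ∀ p ∈ W, ∃ U ∈ T0 true, ∃ V ∈ T0 false, ∃ B : Model, IsProd B U V ∧ p ∈ B ∧ Sub B W

theorem OpenZ.smul (g : blockGroup) {W : Model} (h : OpenZ W) : OpenZ (g • W) := by
  refine ⟨⟨fun h' => h.1.1 ((isAtom_smul_iff g).1 h'), fun z hz => ?_⟩, fun p hp => ?_⟩
  · rw [mem_smul_iff] at hz
    have := (smul_mem_smul_iff g).2 (h.1.2 _ hz)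
    rwa [smul_inv_smul, smul_Z0] at this
  · rw [mem_smul_iff] at hp
    obtain ⟨U, hU, V, hV, B, hB, hpB, hBW⟩ := h.2 _ hp
    refine ⟨g • U, ?_, g • V, ?_, g • B, IsProd.smul g hB, ?_, ?_, ?_⟩
    · rw [← smul_T0 true g, smul_mem_smul_iff]; exact hU
    · rw [← smul_T0 false g, smul_mem_smul_iff]; exact hV
    · rw [mem_smul_iff]; exact hpB
    · exact fun h' => hBW.1 ((isAtom_smul_iff g).1 h')
    · intro z hz
      rw [mem_smul_iff] at hz ⊢
      exact hBW.2 _ hz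

theorem exists_TZ : ∃ t : Model, IsProdTop t Z0 (T0 true) (T0 false) := by
  have := small_subset Z0
  obtain ⟨t, ht, h⟩ := comp (F := blockFilter) {W | OpenZ W}
    (small_of_injective (f := fun z : {W : Model | OpenZ W} =>
      (⟨z.1, z.2.1⟩ : {z : Model | ¬ MemStr.IsAtom z ∧ ∀ w, w ∈ z → w ∈ Z0})) (by
        intro z w h
        exact Subtype.ext (congrArg
          (fun t : {z : Model | ¬ MemStr.IsAtom z ∧ ∀ w, w ∈ z → w ∈ Z0} => t.1) h)))
    blockFilter.top_mem (fun g _ W hW => hW.smul g)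
  exact ⟨t, ht, h⟩

/-- The product topology. -/
noncomputable def TZ : Model := exists_TZ.choose

theorem isProdTop_TZ : IsProdTop TZ Z0 (T0 true) (T0 false) := exists_TZ.choose_spec

theorem mem_TZ {W : Model} : W ∈ TZ ↔ OpenZ W := isProdTop_TZ.2 W

/-- The diagonal point over the atom `a`. -/
noncomputable def dg (a : ℕ × ℚ) : Model := opair (atom blockFilter a) (atom blockFilter a)

theorem smul_dg (g : blockGroup) (a : ℕ × ℚ) : g • dg a = dg ((g : Equiv.Perm (ℕ × ℚ)) a) := by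
  unfold dg
  rw [smul_opair, smul_atom]

theorem smul_fst (g : blockGroup) (a : ℕ × ℚ) : ((g : Equiv.Perm (ℕ × ℚ)) a).1 = a.1 := g.2.1 a

/-- The complement `O n` of the diagonal of the block `n`. -/
theorem exists_O (n : ℕ) : ∃ O : Model, IsSet O ∧
    (∀ p : Model, p ∈ O ↔ p ∈ Z0 ∧ ∀ a : ℕ × ℚ, a.1 = n → p ≠ dg a) ∧
      ∀ g : blockGroup, g • O = O := by
  have hinv : ∀ (g : blockGroup) (p : Model), (∀ a : ℕ × ℚ, a.1 = n → p ≠ dg a) →
      ∀ a : ℕ × ℚ, a.1 = n → g • p ≠ dg a := by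
    intro g p hp a ha h
    have h1 : p = g⁻¹ • dg a := by rw [← h, inv_smul_smul]
    rw [smul_dg] at h1
    exact hp _ (by rw [smul_fst]; exact ha) h1
  obtain ⟨O, hO, h⟩ := sep Z0 (fun p => ∀ a : ℕ × ℚ, a.1 = n → p ≠ dg a)
    blockFilter.top_mem (fun g _ p hp => hinv g p hp)
  refine ⟨O, hO, h, fun g => ?_⟩
  apply ext' (fun h' => hO ((isAtom_smul_iff g).1 h')) hO
  intro z
  rw [mem_smul_iff, h, h]
  have h1 : g⁻¹ • z ∈ Z0 ↔ z ∈ Z0 := by
    rw [← mem_smul_iff, smul_Z0]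
  rw [h1]
  refine and_congr_right fun _ => ⟨fun hz => ?_, fun hz => hinv _ _ hz⟩
  have := hinv g _ hz
  rwa [smul_inv_smul] at this

/-- The complement of the diagonal of the block `n`. -/
noncomputable def O (n : ℕ) : Model := (exists_O n).choose

theorem isSet_O (n : ℕ) : IsSet (O n) := (exists_O n).choose_spec.1

theorem mem_O {n : ℕ} {p : Model} :
    p ∈ O n ↔ p ∈ Z0 ∧ ∀ a : ℕ × ℚ, a.1 = n → p ≠ dg a := (exists_O n).choose_spec.2.1 p

theorem smul_O (n : ℕ) (g : blockGroup) : g • O n = O n := (exists_O n).choose_spec.2.2 g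

theorem dg_mem_Z0 (a : ℕ × ℚ) : dg a ∈ Z0 :=
  mem_Z0.2 ⟨_, atom_mem_X0 a, _, atom_mem_X0 a, rfl⟩

theorem dg_inj {a b : ℕ × ℚ} (h : dg a = dg b) : a = b := atom_inj (opair_inj.1 h).1

theorem O_injective : Function.Injective O := by
  intro m n h
  by_contra hne
  have h1 : dg (m, 0) ∈ O n := mem_O.2 ⟨dg_mem_Z0 _, fun a ha h' => hne (by
    rw [← ha, ← dg_inj h'])⟩
  rw [← h] at h1
  exact (mem_O.1 h1).2 (m, 0) rfl rfl

/-- A box avoiding the diagonal of the block `n`. -/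
theorem box_sub {n : ℕ} {U V B : Model} (hU : U ∈ T0 true) (hV : V ∈ T0 false)
    (hB : IsProd B U V) (h : ∀ a : ℕ × ℚ, a.1 = n → atom blockFilter a ∈ U →
      atom blockFilter a ∈ V → False) : Sub B (O n) := by
  refine ⟨hB.1, fun p hp => ?_⟩
  obtain ⟨x, hx, y, hy, hp⟩ := (hB.2 p).1 hp
  rw [isOPair_iff] at hp
  refine mem_O.2 ⟨mem_Z0.2 ⟨x, (mem_T0.1 hU).1.2 x hx, y, (mem_T0.1 hV).1.2 y hy, hp⟩, ?_⟩
  rintro a ha hpa
  rw [hp] at hpa
  obtain ⟨rfl, rfl⟩ := opair_inj.1 hpa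
  exact h a ha hx hy

/-- The sets `O n` are open. -/
theorem O_open (n : ℕ) : O n ∈ TZ := by
  rw [mem_TZ]
  refine ⟨⟨isSet_O n, fun z hz => (mem_O.1 hz).1⟩, fun p hp => ?_⟩
  obtain ⟨hpZ, hpd⟩ := mem_O.1 hp
  obtain ⟨x, hx, y, hy, rfl⟩ := mem_Z0.1 hpZ
  have key : ∃ U ∈ T0 true, ∃ V ∈ T0 false, x ∈ U ∧ y ∈ V ∧
      ∀ a : ℕ × ℚ, a.1 = n → atom blockFilter a ∈ U → atom blockFilter a ∈ V → False := by
    have hne : ∀ (d : Bool) (b : ℕ × ℚ), ∃ V ∈ T0 d, ∀ z : Model, z ∈ V ↔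
        z = e0 ∨ ∃ a, a ≠ b ∧ z = atom blockFilter a := by
      intro d b
      refine exists_nhd d (fun a => a ≠ b) {b} (Set.finite_singleton b) ?_ ?_
      · intro g hg a ha h
        rw [mem_fixingSubgroup_iff] at hg
        have hgb : (g : Equiv.Perm (ℕ × ℚ)) b = b := hg b rfl
        exact ha ((g : Equiv.Perm (ℕ × ℚ)).injective (h.trans hgb.symm))
      · intro m
        refine ⟨b.2, fun r hr h => ?_⟩
        rw [← h] at hr
        exact lt'_irrefl hr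
    have hlt : ∀ d : Bool, ∃ V ∈ T0 d, ∀ z : Model, z ∈ V ↔
        z = e0 ∨ ∃ a : ℕ × ℚ, (a.1 = n → lt' d 0 a.2) ∧ z = atom blockFilter a := by
      intro d
      refine exists_nhd d (fun a => a.1 = n → lt' d 0 a.2) {(n, 0)}
        (Set.finite_singleton _) ?_ ?_
      · intro g hg a ha h
        rw [mem_fixingSubgroup_iff] at hg
        have hgb : (g : Equiv.Perm (ℕ × ℚ)) (n, 0) = (n, 0) := hg (n, 0) rfl
        rw [smul_fst] at h
        have h1 := ha h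
        cases d
        · have h2 : a.2 < (0 : ℚ) := h1
          have h3 := (g.2.2 a (n, 0) h).1 h2
          rw [hgb] at h3
          exact h3
        · have h2 : (0 : ℚ) < a.2 := h1
          have h3 := (g.2.2 (n, 0) a h.symm).1 h2
          rw [hgb] at h3
          exact h3
      · intro m
        exact ⟨0, fun r hr _ => hr⟩
    rcases mem_X0.1 hx with rfl | ⟨a, rfl⟩
    · rcases mem_X0.1 hy with rfl | ⟨b, rfl⟩
      · obtain ⟨U, hU, hU'⟩ := hlt true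
        obtain ⟨V, hV, hV'⟩ := hlt false
        refine ⟨U, hU, V, hV, (hU' _).2 (Or.inl rfl), (hV' _).2 (Or.inl rfl), ?_⟩
        intro a ha haU haV
        rcases (hU' _).1 haU with h | ⟨a', ha', h⟩
        · exact atom_ne_e0 a h
        · rcases (hV' _).1 haV with h' | ⟨a'', ha'', h'⟩
          · exact atom_ne_e0 a h'
          · obtain rfl := atom_inj h
            obtain rfl := atom_inj h'
            have h1 : (0 : ℚ) < a.2 := ha' ha
            have h2 : a.2 < (0 : ℚ) := ha'' ha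
            exact lt_asymm h1 h2
      · obtain ⟨U, hU, hU'⟩ := hne true b
        obtain ⟨V, hV, hV'⟩ := exists_singleton false b
        refine ⟨U, hU, V, hV, (hU' _).2 (Or.inl rfl), (hV' _).2 rfl, ?_⟩
        intro a ha haU haV
        rcases (hU' _).1 haU with h | ⟨a', ha', h⟩
        · exact atom_ne_e0 a h
        · obtain rfl := atom_inj h
          exact ha' (atom_inj ((hV' _).1 haV))
    · rcases mem_X0.1 hy with rfl | ⟨b, rfl⟩
      · obtain ⟨U, hU, hU'⟩ := exists_singleton true a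
        obtain ⟨V, hV, hV'⟩ := hne false a
        refine ⟨U, hU, V, hV, (hU' _).2 rfl, (hV' _).2 (Or.inl rfl), ?_⟩
        intro b ha haU haV
        rcases (hV' _).1 haV with h | ⟨a', ha', h⟩
        · exact atom_ne_e0 b h
        · obtain rfl := atom_inj h
          exact ha' (atom_inj ((hU' _).1 haU))
      · obtain ⟨U, hU, hU'⟩ := exists_singleton true a
        obtain ⟨V, hV, hV'⟩ := exists_singleton false b
        refine ⟨U, hU, V, hV, (hU' _).2 rfl, (hV' _).2 rfl, ?_⟩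
        intro c hc hcU hcV
        obtain rfl := atom_inj ((hU' _).1 hcU)
        obtain rfl := atom_inj ((hV' _).1 hcV)
        exact hpd c hc rfl
  obtain ⟨U, hU, V, hV, hxU, hyV, hUV⟩ := key
  obtain ⟨B, hB⟩ := exists_prod U V
  exact ⟨U, hU, V, hV, B, hB, (hB.2 _).2 ⟨x, hxU, y, hyV, isOPair_opair x y⟩,
    box_sub hU hV hB hUV⟩

/-- The family of the sets `O n` is countable in the model. -/
theorem exists_family : ∃ S : Model, Sub S TZ ∧ IsCountable S ∧ ∀ z : Model, z ∈ S ↔ ∃ n, z = O n := by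
  obtain ⟨S, hS, hSO⟩ := exists_fam (F := blockFilter) O blockFilter.top_mem
    (fun g _ n => ⟨n, smul_O n g⟩)
  obtain ⟨num, w, hw, hwm, hinj, hfix⟩ := exists_omega blockFilter
  obtain ⟨f, hf, hfm⟩ := exists_fam (F := blockFilter) (fun n => opair (O n) (num n))
    blockFilter.top_mem (fun g _ n => ⟨n, by rw [smul_opair, smul_O, hfix]⟩)
  refine ⟨S, ⟨hS, fun z hz => ?_⟩, ⟨w, w, f, hw, ⟨hw.1.1, fun z hz => hz⟩, hf, ?_, ?_, ?_⟩, hSO⟩
  · obtain ⟨n, rfl⟩ := (hSO z).1 hz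
    exact O_open n
  · intro p hp
    obtain ⟨n, rfl⟩ := (hfm p).1 hp
    exact ⟨O n, (hSO _).2 ⟨n, rfl⟩, num n, (hwm _).2 ⟨n, rfl⟩, isOPair_opair _ _⟩
  · intro a ha
    obtain ⟨n, rfl⟩ := (hSO a).1 ha
    refine ⟨num n, ⟨_, (hfm _).2 ⟨n, rfl⟩, isOPair_opair _ _⟩, ?_⟩
    rintro b ⟨p, hp, hpb⟩
    obtain ⟨m, rfl⟩ := (hfm p).1 hp
    obtain ⟨h1, h2⟩ := opair_inj.1 (isOPair_iff.1 hpb)
    rw [← h2, O_injective h1]
  · intro b hb
    obtain ⟨n, rfl⟩ := (hwm b).1 hb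
    refine ⟨O n, ⟨_, (hfm _).2 ⟨n, rfl⟩, isOPair_opair _ _⟩, ?_⟩
    rintro a ⟨p, hp, hpa⟩
    obtain ⟨m, rfl⟩ := (hfm p).1 hp
    obtain ⟨h1, h2⟩ := opair_inj.1 (isOPair_iff.1 hpa)
    rw [← h1, hinj h2]

/-- The product is not a `P`-space. -/
theorem not_isPSpace_TZ : ¬ IsPSpace Z0 TZ := by
  intro hP
  obtain ⟨S, hST, hSc, hS⟩ := exists_family
  have hz : opair e0 e0 ∈ Z0 := mem_Z0.2 ⟨_, e0_mem_X0, _, e0_mem_X0, rfl⟩
  obtain ⟨g, hg, hgm⟩ := sep Z0 (fun z => ∀ U ∈ S, z ∈ U) (stab_mem S) (by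
    intro g hg z hz U hU
    have hg : g • S = S := hg
    rw [← hg, mem_smul_iff] at hU
    have := (smul_mem_smul_iff g).2 (hz _ hU)
    rwa [smul_inv_smul] at this)
  have hgm' : ∀ z : Model, z ∈ g ↔ ∀ U ∈ S, z ∈ U := fun z =>
    (hgm z).trans ⟨fun h => h.2, fun h => ⟨(mem_O.1 (h (O 0) ((hS _).2 ⟨0, rfl⟩))).1, h⟩⟩
  have heg : opair e0 e0 ∈ g := by
    rw [hgm']
    intro U hU
    obtain ⟨n, rfl⟩ := (hS U).1 hU
    exact mem_O.2 ⟨hz, fun a _ h => atom_ne_e0 a (opair_inj.1 h).1.symm⟩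
  obtain ⟨W, hW, heW, hWg⟩ := hP.2 _ hz g
    ⟨hg, S, hST, ⟨O 0, (hS _).2 ⟨0, rfl⟩⟩, hSc, hgm'⟩ heg
  obtain ⟨-, hW'⟩ := mem_TZ.1 hW
  obtain ⟨U, hU, V, hV, B, hB, heB, hBW⟩ := hW' _ heW
  obtain ⟨x, hx, y, hy, hxy⟩ := (hB.2 _).1 heB
  obtain ⟨rfl, rfl⟩ := opair_inj.1 (isOPair_iff.1 hxy)
  obtain ⟨E, hE, hEU⟩ := stab_mem U
  obtain ⟨E', hE', hEV⟩ := stab_mem V
  obtain ⟨n, hn⟩ : ∃ n, ∀ a ∈ E ∪ E', a.1 ≠ n := by
    obtain ⟨n, hn⟩ := (((hE.union hE').image Prod.fst).toFinset).exists_notMem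
    refine ⟨n, fun a ha h => hn ?_⟩
    rw [Set.Finite.mem_toFinset]
    exact ⟨a, ha, h⟩
  have hUn : atom blockFilter (n, 0) ∈ U := by
    obtain ⟨q', hq'⟩ := (mem_T0.1 hU).2 hx n
    refine mem_of_beyond (d := true) (E := E) (q := -1) (fun g hg => hEU hg)
      (fun a ha han => absurd han (hn a (Or.inl ha))) hq' ?_
    show (-1 : ℚ) < 0
    norm_num
  have hVn : atom blockFilter (n, 0) ∈ V := by
    obtain ⟨q', hq'⟩ := (mem_T0.1 hV).2 hy n
    refine mem_of_beyond (d := false) (E := E') (q := 1) (fun g hg => hEV hg)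
      (fun a ha han => absurd han (hn a (Or.inr ha))) hq' ?_
    show (0 : ℚ) < 1
    norm_num
  have h1 : dg (n, 0) ∈ B := (hB.2 _).2 ⟨_, hUn, _, hVn, isOPair_opair _ _⟩
  have h2 : dg (n, 0) ∈ g := hWg.2 _ (hBW.2 _ h1)
  exact (mem_O.1 ((hgm' _).1 h2 (O n) ((hS _).2 ⟨n, rfl⟩))).2 (n, 0) rfl rfl

/-- `PPP` fails in the model. -/
theorem not_PPP : ¬ PPP Model := fun h =>
  not_isPSpace_TZ (h X0 (T0 true) X0 (T0 false) Z0 TZ (isPSpace_T0 true) (isPSpace_T0 false)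
    isProd_Z0 isProdTop_TZ)

end Pool.Agent.Lib.MP_e864e9_lc
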