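import Pool.Agent.Lib.MP_e864e9_lc.Perm

/-!
# Set-theoretic notions inside a structure for set theory with atoms

Everything below is the literal relativisation to the structure `M` of the usual set-theoretic
definition (quantifiers range over the elements of `M`).
-/

set_option autoImplicit false

namespace Pool.Agent.Lib.MP_e864e9_lc

section defs

variable {M : Type 1} [MemStr M]

/-- `x` is a set (not an atom). -/
def IsSet (x : M) : Prop := ¬ MemStr.IsAtom x

/-- `x` is a set all of whose members are members of `y`. -/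
def Sub (x y : M) : Prop := IsSet x ∧ ∀ z : M, z ∈ x → z ∈ y

/-- `x` is the empty set. -/
def IsEmptySet (x : M) : Prop := IsSet x ∧ ∀ z : M, ¬ z ∈ x

/-- `p = {x, y}`. -/
def IsUPair (p x y : M) : Prop := IsSet p ∧ ∀ z : M, z ∈ p ↔ z = x ∨ z = y

/-- `p = (x, y)`, the Kuratowski ordered pair `{{x, x}, {x, y}}`. -/
def IsOPair (p x y : M) : Prop := IsSet p ∧ ∀ z : M, z ∈ p ↔ IsUPair z x x ∨ IsUPair z x y

/-- `y = x ∪ {x}`. -/
def IsSucc (y x : M) : Prop := IsSet y ∧ ∀ z : M, z ∈ y ↔ z ∈ x ∨ z = x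

/-- `w` is an inductive set. -/
def IsInductive (w : M) : Prop :=
  IsSet w ∧ (∃ e ∈ w, IsEmptySet e) ∧ ∀ x ∈ w, ∃ y ∈ w, IsSucc y x

/-- `w` is `ω`, the least inductive set. -/
def IsOmega (w : M) : Prop := IsInductive w ∧ ∀ v : M, IsInductive v → Sub w v

/-- `f` is (the graph of) a bijection from `x` onto `y`. -/
def IsBij (f x y : M) : Prop :=
  IsSet f ∧ (∀ p ∈ f, ∃ a ∈ x, ∃ b ∈ y, IsOPair p a b) ∧
    (∀ a ∈ x, ∃! b : M, ∃ p ∈ f, IsOPair p a b) ∧
    (∀ b ∈ y, ∃! a : M, ∃ p ∈ f, IsOPair p a b)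

/-- `x` is countable: equipotent to a subset of `ω`. -/
def IsCountable (x : M) : Prop := ∃ w s f : M, IsOmega w ∧ Sub s w ∧ IsBij f x s

/-- `t` is a topology on the set `X`. -/
def IsTopology (X t : M) : Prop :=
  IsSet X ∧ IsSet t ∧ (∀ U ∈ t, Sub U X) ∧ (∃ e ∈ t, IsEmptySet e) ∧ X ∈ t ∧
    (∀ U ∈ t, ∀ V ∈ t, ∃ W ∈ t, ∀ z : M, z ∈ W ↔ z ∈ U ∧ z ∈ V) ∧
    (∀ S : M, Sub S t → ∃ W ∈ t, ∀ z : M, z ∈ W ↔ ∃ U ∈ S, z ∈ U)

/-- `g` is a `G_δ`-set for the topology `t`: the intersection of a non-empty countable family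
of open sets. -/
def IsGdelta (t g : M) : Prop :=
  IsSet g ∧ ∃ S : M, Sub S t ∧ (∃ U : M, U ∈ S) ∧ IsCountable S ∧
    ∀ z : M, z ∈ g ↔ ∀ U ∈ S, z ∈ U

/-- `x` is a `P`-point for the topology `t`: every `G_δ`-set which contains `x` contains `x` in its
interior. -/
def IsPPoint (t x : M) : Prop :=
  ∀ g : M, IsGdelta t g → x ∈ g → ∃ V ∈ t, x ∈ V ∧ Sub V g

/-- `(X, t)` is a `P`-space: a topological space all of whose points are `P`-points. -/
def IsPSpace (X t : M) : Prop := IsTopology X t ∧ ∀ x ∈ X, IsPPoint t x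

/-- `Z = X × Y`. -/
def IsProd (Z X Y : M) : Prop := IsSet Z ∧ ∀ p : M, p ∈ Z ↔ ∃ x ∈ X, ∃ y ∈ Y, IsOPair p x y

/-- `t` is the product topology on `Z = X × Y` of the topologies `tX` and `tY`: its members are
the subsets `W` of `Z` each of whose points lies in a product `U × V ⊆ W` with `U` and `V` open. -/
def IsProdTop (t Z tX tY : M) : Prop :=
  IsSet t ∧ ∀ W : M, W ∈ t ↔
    (Sub W Z ∧ ∀ p ∈ W, ∃ U ∈ tX, ∃ V ∈ tY, ∃ B : M, IsProd B U V ∧ p ∈ B ∧ Sub B W)

variable (M) in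
/-- The statement `PPP`, relativised to `M`: the product of two `P`-spaces is a `P`-space. -/
def PPP : Prop :=
  ∀ X tX Y tY Z t : M, IsPSpace X tX → IsPSpace Y tY → IsProd Z X Y → IsProdTop t Z tX tY →
    IsPSpace Z t

end defs

namespace HS

variable {A : Type} {G : Subgroup (Equiv.Perm A)} {F : NormalFilter G}

theorem ext' {x y : HS F} (hx : IsSet x) (hy : IsSet y) (h : ∀ z : HS F, z ∈ x ↔ z ∈ y) : x = y :=
  ext hx hy h

/-- The atom `a` as an element of the permutation model. -/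
def atom (F : NormalFilter G) (a : A) : HS F :=
  ⟨VA.atom a, hSymm_iff.2 ⟨by
    refine F.mem_of_le (F.stab_atom_mem a) fun g hg => ?_
    rw [MulAction.mem_stabilizer_iff] at hg ⊢
    exact congrArg VA.atom hg, fun y hy => (VA.not_mem_atom a y hy).elim⟩⟩

theorem smul_atom (g : G) (a : A) : g • atom F a = atom F ((g : Equiv.Perm A) a) := rfl

theorem atom_inj {a b : A} (h : atom F a = atom F b) : a = b :=
  VA.atom_injective (congrArg Subtype.val h)

theorem isAtom_atom (a : A) : MemStr.IsAtom (atom F a) := VA.isAtom_atom a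

theorem not_mem_atom (a : A) (x : HS F) : ¬ x ∈ atom F a := VA.not_mem_atom a x.1

/-- The set of the values of a family, provided that the family is invariant under a subgroup
belonging to the filter. -/
theorem exists_fam {ι : Type} (f : ι → HS F) {H : Subgroup G} (hH : H ∈ F.sets)
    (inv : ∀ g ∈ H, ∀ i, ∃ j, g • f i = f j) :
    ∃ x : HS F, IsSet x ∧ ∀ z : HS F, z ∈ x ↔ ∃ i, z = f i := by
  obtain ⟨x, hx, h⟩ := comp (Set.range f) inferInstance hH (by
    rintro g hg _ ⟨i, rfl⟩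
    obtain ⟨j, hj⟩ := inv g hg i
    exact ⟨j, hj.symm⟩)
  refine ⟨x, hx, fun z => (h z).trans ?_⟩
  simp only [Set.mem_range, eq_comm]

theorem exists_empty (F : NormalFilter G) : ∃ e : HS F, IsEmptySet e := by
  obtain ⟨x, hx, h⟩ := exists_fam (F := F) (fun i : Empty => i.elim) F.top_mem
    (fun _ _ i => i.elim)
  exact ⟨x, hx, fun z hz => by obtain ⟨i, -⟩ := (h z).1 hz; exact i.elim⟩

theorem exists_upair (x y : HS F) : ∃ p : HS F, IsUPair p x y := by
  obtain ⟨p, hp, h⟩ := exists_fam (F := F) (fun i : Bool => if i then x else y)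
    (F.inter_mem (stab_mem x) (stab_mem y)) (by
      rintro g ⟨hx, hy⟩ i
      refine ⟨i, ?_⟩
      cases i
      · simpa using hy
      · simpa using hx)
  refine ⟨p, hp, fun z => (h z).trans ?_⟩
  simp [or_comm]

theorem IsUPair.unique {p q x y : HS F} (hp : IsUPair p x y) (hq : IsUPair q x y) : p = q :=
  ext' hp.1 hq.1 fun z => (hp.2 z).trans (hq.2 z).symm

theorem exists_opair (x y : HS F) : ∃ p : HS F, IsOPair p x y := by
  obtain ⟨a, ha⟩ := exists_upair x x
  obtain ⟨b, hb⟩ := exists_upair x y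
  obtain ⟨p, hp⟩ := exists_upair a b
  refine ⟨p, hp.1, fun z => (hp.2 z).trans ?_⟩
  constructor
  · rintro (rfl | rfl)
    · exact Or.inl ha
    · exact Or.inr hb
  · rintro (h | h)
    · exact Or.inl (IsUPair.unique h ha)
    · exact Or.inr (IsUPair.unique h hb)

theorem IsOPair.unique {p q x y : HS F} (hp : IsOPair p x y) (hq : IsOPair q x y) : p = q :=
  ext' hp.1 hq.1 fun z => (hp.2 z).trans (hq.2 z).symm

theorem IsUPair.eq {p x y x' y' : HS F} (h : IsUPair p x y) (h' : IsUPair p x' y') :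
    (x = x' ∧ y = y') ∨ (x = y' ∧ y = x') := by
  have h1 : x = x' ∨ x = y' := (h'.2 x).1 ((h.2 x).2 (Or.inl rfl))
  have h2 : y = x' ∨ y = y' := (h'.2 y).1 ((h.2 y).2 (Or.inr rfl))
  have h3 : x' = x ∨ x' = y := (h.2 x').1 ((h'.2 x').2 (Or.inl rfl))
  have h4 : y' = x ∨ y' = y := (h.2 y').1 ((h'.2 y').2 (Or.inr rfl))
  rcases h1 with rfl | rfl
  · rcases h4 with rfl | rfl
    · rcases h2 with rfl | rfl <;> exact Or.inl ⟨rfl, rfl⟩
    · exact Or.inl ⟨rfl, rfl⟩
  · rcases h3 with rfl | rfl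
    · rcases h2 with rfl | rfl <;> exact Or.inr ⟨rfl, rfl⟩
    · exact Or.inr ⟨rfl, rfl⟩

theorem IsOPair.eq {p x y x' y' : HS F} (h : IsOPair p x y) (h' : IsOPair p x' y') :
    x = x' ∧ y = y' := by
  obtain ⟨a, ha⟩ := exists_upair x x
  obtain ⟨b, hb⟩ := exists_upair x y
  obtain ⟨a', ha'⟩ := exists_upair x' x'
  obtain ⟨b', hb'⟩ := exists_upair x' y'
  have hx : x = x' := by
    rcases (h'.2 a).1 ((h.2 a).2 (Or.inl ha)) with h1 | h1
    · rcases IsUPair.eq ha h1 with h2 | h2 <;> exact h2.1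
    · rcases IsUPair.eq ha h1 with h2 | h2
      · exact h2.1
      · exact h2.2
  subst hx
  refine ⟨rfl, ?_⟩
  rcases (h'.2 b).1 ((h.2 b).2 (Or.inr hb)) with h1 | h1
  · -- b = {x, x}
    have hy : y = x := by
      rcases IsUPair.eq hb h1 with h2 | h2 <;> exact h2.2
    subst hy
    rcases (h.2 b').1 ((h'.2 b').2 (Or.inr hb')) with h3 | h3
    · rcases IsUPair.eq hb' h3 with h4 | h4
      · exact h4.2.symm
      · exact h4.2.symm
    · rcases IsUPair.eq hb' h3 with h4 | h4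
      · exact h4.2.symm
      · exact h4.2.symm
  · rcases IsUPair.eq hb h1 with h2 | h2
    · exact h2.2
    · exact h2.2.trans h2.1

/-- The ordered pair as a function. -/
noncomputable def opair (x y : HS F) : HS F := (exists_opair x y).choose

theorem isOPair_opair (x y : HS F) : IsOPair (opair x y) x y := (exists_opair x y).choose_spec

theorem isOPair_iff {p x y : HS F} : IsOPair p x y ↔ p = opair x y :=
  ⟨fun h => IsOPair.unique h (isOPair_opair x y), fun h => h ▸ isOPair_opair x y⟩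

theorem opair_inj {x y x' y' : HS F} : opair x y = opair x' y' ↔ x = x' ∧ y = y' := by
  constructor
  · intro h
    exact IsOPair.eq (isOPair_opair x y) (h ▸ isOPair_opair x' y')
  · rintro ⟨rfl, rfl⟩; rfl

theorem IsUPair.smul (g : G) {p x y : HS F} (h : IsUPair p x y) :
    IsUPair (g • p) (g • x) (g • y) := by
  refine ⟨fun h' => h.1 ((isAtom_smul_iff g).1 h'), fun z => ?_⟩
  rw [mem_smul_iff, h.2, inv_smul_eq_iff, inv_smul_eq_iff]

theorem smul_isUPair_iff (g : G) {p x y : HS F} :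
    IsUPair (g • p) (g • x) (g • y) ↔ IsUPair p x y := by
  refine ⟨fun h => ?_, IsUPair.smul g⟩
  have := IsUPair.smul g⁻¹ h
  simpa only [inv_smul_smul] using this

theorem IsOPair.smul (g : G) {p x y : HS F} (h : IsOPair p x y) :
    IsOPair (g • p) (g • x) (g • y) := by
  refine ⟨fun h' => h.1 ((isAtom_smul_iff g).1 h'), fun z => ?_⟩
  rw [mem_smul_iff, h.2, ← smul_isUPair_iff g, ← smul_isUPair_iff (x := x) (y := y) g,
    smul_inv_smul]

theorem smul_opair (g : G) (x y : HS F) : g • opair x y = opair (g • x) (g • y) :=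
  isOPair_iff.1 (IsOPair.smul g (isOPair_opair x y))

/-- Products exist. -/
theorem exists_prod (X Y : HS F) : ∃ Z : HS F, IsProd Z X Y := by
  have := small_mem X
  have := small_mem Y
  obtain ⟨Z, hZ, h⟩ := comp (F := F)
    (Set.range fun p : {z : HS F | z ∈ X} × {z : HS F | z ∈ Y} => opair p.1.1 p.2.1)
    inferInstance (F.inter_mem (stab_mem X) (stab_mem Y)) (by
      rintro g ⟨hX, hY⟩ _ ⟨⟨⟨x, hx⟩, ⟨y, hy⟩⟩, rfl⟩
      have hX : g • X = X := hX
      have hY : g • Y = Y := hY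
      refine ⟨⟨⟨g • x, ?_⟩, ⟨g • y, ?_⟩⟩, (smul_opair g x y).symm⟩
      · have : g • x ∈ g • X := (smul_mem_smul_iff g).2 hx
        rwa [hX] at this
      · have : g • y ∈ g • Y := (smul_mem_smul_iff g).2 hy
        rwa [hY] at this)
  refine ⟨Z, hZ, fun p => (h p).trans ?_⟩
  constructor
  · rintro ⟨⟨⟨x, hx⟩, ⟨y, hy⟩⟩, rfl⟩
    exact ⟨x, hx, y, hy, isOPair_opair x y⟩
  · rintro ⟨x, hx, y, hy, hp⟩
    exact ⟨⟨⟨x, hx⟩, ⟨y, hy⟩⟩, (isOPair_iff.1 hp).symm⟩

theorem IsEmptySet.smul (g : G) {x : HS F} (h : IsEmptySet x) : g • x = x := by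
  apply ext' (fun h' => h.1 ((isAtom_smul_iff g).1 h')) h.1
  intro z
  rw [mem_smul_iff]
  exact iff_of_false (h.2 _) (h.2 _)

theorem IsEmptySet.unique {x y : HS F} (hx : IsEmptySet x) (hy : IsEmptySet y) : x = y :=
  ext' hx.1 hy.1 fun z => iff_of_false (hx.2 z) (hy.2 z)

/-- All elements of `ω` are fixed by the group. -/
theorem smul_of_mem_omega {w x : HS F} (hw : IsOmega w) (hx : x ∈ w) (g : G) : g • x = x := by
  obtain ⟨v, hv, hvm⟩ := sep w (fun x => ∀ g : G, g • x = x) F.top_mem (by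
    intro g _ z hz g'
    rw [hz g, hz g'])
  have hind : IsInductive v := by
    refine ⟨hv, ?_, ?_⟩
    · obtain ⟨e, he, he'⟩ := hw.1.2.1
      exact ⟨e, (hvm e).2 ⟨he, fun g => IsEmptySet.smul g he'⟩, he'⟩
    · intro y hy
      obtain ⟨z, hz, hzy⟩ := hw.1.2.2 y ((hvm y).1 hy).1
      refine ⟨z, (hvm z).2 ⟨hz, fun g => ?_⟩, hzy⟩
      apply ext' (fun h' => hzy.1 ((isAtom_smul_iff g).1 h')) hzy.1
      intro t
      have hyg := ((hvm y).1 hy).2 g
      rw [mem_smul_iff, hzy.2, hzy.2, inv_smul_eq_iff, hyg]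
      have : g⁻¹ • t ∈ y ↔ t ∈ y := by
        rw [← mem_smul_iff, hyg]
      rw [this]
  exact ((hvm x).1 ((hw.2 v hind).2 x hx)).2 g

/-- The von Neumann numeral `n`. -/
theorem exists_nums (F : NormalFilter G) :
    ∃ num : ℕ → HS F, (∀ n, IsSet (num n)) ∧ (∀ n z, z ∈ num n ↔ ∃ m < n, z = num m) ∧
      ∀ n (g : G), g • num n = num n := by
  have step : ∀ n : ℕ, ∀ f : (m : ℕ) → m < n → {x : HS F // ∀ g : G, g • x = x},
      ∃ x : {x : HS F // ∀ g : G, g • x = x}, IsSet x.1 ∧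
        ∀ z, z ∈ x.1 ↔ ∃ m, ∃ h : m < n, z = (f m h).1 := by
    intro n f
    obtain ⟨x, hx, h⟩ := exists_fam (F := F) (fun i : Fin n => (f i.1 i.2).1) F.top_mem
      (fun g _ i => ⟨i, (f i.1 i.2).2 g⟩)
    refine ⟨⟨x, fun g => ?_⟩, hx, fun z => (h z).trans
      ⟨fun ⟨i, hi⟩ => ⟨i.1, i.2, hi⟩, fun ⟨m, hm, hz⟩ => ⟨⟨m, hm⟩, hz⟩⟩⟩
    apply ext' (fun h' => hx ((isAtom_smul_iff g).1 h')) hx
    intro z
    rw [mem_smul_iff, h, h]
    constructor
    · rintro ⟨i, hi⟩
      refine ⟨i, ?_⟩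
      rw [inv_smul_eq_iff] at hi
      rw [hi, (f i.1 i.2).2 g]
    · rintro ⟨i, hi⟩
      refine ⟨i, ?_⟩
      rw [inv_smul_eq_iff, (f i.1 i.2).2 g, hi]
  choose s hs using step
  let num : ℕ → {x : HS F // ∀ g : G, g • x = x} := (Nat.lt_wfRel.wf).fix s
  have hnum : ∀ n, num n = s n (fun m _ => num m) := fun n => (Nat.lt_wfRel.wf).fix_eq s n
  refine ⟨fun n => (num n).1, fun n => ?_, fun n z => ?_, fun n g => (num n).2 g⟩
  · have := (hs n (fun m _ => num m)).1
    rw [← hnum n] at this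
    exact this
  · have := (hs n (fun m _ => num m)).2 z
    rw [← hnum n] at this
    refine this.trans ?_
    exact ⟨fun ⟨m, hm, h⟩ => ⟨m, hm, h⟩, fun ⟨m, hm, h⟩ => ⟨m, hm, h⟩⟩

/-- Membership in a permutation model is well-founded. -/
theorem mem_wf : WellFounded (fun x y : HS F => x ∈ y) :=
  InvImage.wf (fun x : HS F => x.1) VA.mem_wf

theorem not_mem_self (x : HS F) : ¬ x ∈ x := fun h => by
  have := mem_wf (F := F)
  exact this.asymmetric x x h h

/-- `ω` exists, and is the set of numerals. -/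
theorem exists_omega (F : NormalFilter G) :
    ∃ (num : ℕ → HS F) (w : HS F), IsOmega w ∧ (∀ z, z ∈ w ↔ ∃ n, z = num n) ∧
      Function.Injective num ∧ ∀ n (g : G), g • num n = num n := by
  obtain ⟨num, hset, hmem, hfix⟩ := exists_nums F
  obtain ⟨w, hw, hwm⟩ := exists_fam (F := F) num F.top_mem (fun g _ i => ⟨i, hfix i g⟩)
  have hsucc : ∀ n, IsSucc (num (n + 1)) (num n) := by
    intro n
    refine ⟨hset _, fun z => ?_⟩
    rw [hmem, hmem]
    constructor
    · rintro ⟨m, hm, rfl⟩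
      rcases Nat.lt_succ_iff_lt_or_eq.1 hm with h | rfl
      · exact Or.inl ⟨m, h, rfl⟩
      · exact Or.inr rfl
    · rintro (⟨m, hm, rfl⟩ | rfl)
      · exact ⟨m, hm.trans (Nat.lt_succ_self n), rfl⟩
      · exact ⟨n, Nat.lt_succ_self n, rfl⟩
  have hempty : IsEmptySet (num 0) := ⟨hset 0, fun z hz => by
    obtain ⟨m, hm, -⟩ := (hmem 0 z).1 hz
    exact absurd hm (Nat.not_lt_zero m)⟩
  refine ⟨num, w, ⟨⟨hw, ⟨num 0, (hwm _).2 ⟨0, rfl⟩, hempty⟩, ?_⟩, ?_⟩, hwm, ?_, hfix⟩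
  · intro x hx
    obtain ⟨n, rfl⟩ := (hwm x).1 hx
    exact ⟨num (n + 1), (hwm _).2 ⟨n + 1, rfl⟩, hsucc n⟩
  · intro v hv
    refine ⟨hw, fun z hz => ?_⟩
    obtain ⟨n, rfl⟩ := (hwm z).1 hz
    clear hz
    induction n with
    | zero =>
      obtain ⟨e, he, he'⟩ := hv.2.1
      rwa [IsEmptySet.unique hempty he']
    | succ n ih =>
      obtain ⟨y, hy, hy'⟩ := hv.2.2 _ ih
      have : y = num (n + 1) :=
        ext' hy'.1 (hset _) fun z => (hy'.2 z).trans ((hsucc n).2 z).symm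
      rwa [← this]
  · intro m n hmn
    by_contra hne
    rcases lt_or_gt_of_ne hne with h | h
    · have : num m ∈ num n := (hmem n _).2 ⟨m, h, rfl⟩
      rw [hmn] at this
      exact not_mem_self _ this
    · have : num n ∈ num m := (hmem m _).2 ⟨n, h, rfl⟩
      rw [hmn] at this
      exact not_mem_self _ this

end HS

end Pool.Agent.Lib.MP_e864e9_lc
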