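import Pool.Agent.Lib.MP_e864e9_lc.Internal

/-!
# The permutation model

Atoms: `ℕ × ℚ`. Group: the permutations preserving each block `{n} × ℚ` together with its order.
Filter: finite supports.
-/

set_option autoImplicit false

namespace Pool.Agent.Lib.MP_e864e9_lc

/-- The normal filter of finite supports: a subgroup belongs to it when it contains the pointwise
stabilizer of a finite set of atoms. -/
def finSupp {A : Type} (G : Subgroup (Equiv.Perm A)) : NormalFilter G where
  sets := {H | ∃ E : Set A, E.Finite ∧ fixingSubgroup G E ≤ H}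
  top_mem := ⟨∅, Set.finite_empty, le_top⟩
  mem_of_le := fun ⟨E, hE, h⟩ h' => ⟨E, hE, h.trans h'⟩
  inter_mem := fun ⟨E, hE, h⟩ ⟨E', hE', h'⟩ => ⟨E ∪ E', hE.union hE', by
    rw [fixingSubgroup_union]
    exact inf_le_inf h h'⟩
  conj_mem := fun g H ⟨E, hE, h⟩ => ⟨(fun a => g • a) '' E, hE.image _, by
    intro k hk
    refine ⟨g⁻¹ * k * g, h ?_, ?_⟩
    · rw [mem_fixingSubgroup_iff] at hk ⊢
      intro a ha
      rw [mul_smul, mul_smul, hk _ ⟨a, ha, rfl⟩, inv_smul_smul]
    · simp [mul_assoc]⟩
  stab_atom_mem := fun a => ⟨{a}, Set.finite_singleton a, by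
    intro k hk
    rw [mem_fixingSubgroup_iff] at hk
    exact hk a rfl⟩

/-- The group of all permutations of `ℕ × ℚ` which preserve each block `{n} × ℚ` and the order
of the rationals in it. -/
def blockGroup : Subgroup (Equiv.Perm (ℕ × ℚ)) where
  carrier := {π | (∀ a, (π a).1 = a.1) ∧ ∀ a b : ℕ × ℚ, a.1 = b.1 → (a.2 < b.2 ↔ (π a).2 < (π b).2)}
  one_mem' := ⟨fun _ => rfl, fun _ _ _ => Iff.rfl⟩
  mul_mem' := by
    rintro π σ ⟨h1, h2⟩ ⟨k1, k2⟩
    refine ⟨fun a => ?_, fun a b hab => ?_⟩
    · rw [Equiv.Perm.mul_apply, h1, k1]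
    · rw [Equiv.Perm.mul_apply, Equiv.Perm.mul_apply, k2 a b hab]
      exact h2 _ _ (by rw [k1, k1, hab])
  inv_mem' := by
    rintro π ⟨h1, h2⟩
    have hinv : ∀ a, π (π⁻¹ a) = a := fun a => Equiv.apply_symm_apply π a
    have h3 : ∀ a, (π⁻¹ a).1 = a.1 := fun a => by
      have := h1 (π⁻¹ a)
      rw [hinv] at this
      exact this.symm
    refine ⟨h3, fun a b hab => ?_⟩
    have := h2 (π⁻¹ a) (π⁻¹ b) (by rw [h3, h3, hab])
    rw [hinv, hinv] at this
    exact this.symm

/-- The order of the rationals, or its reverse. -/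
def lt' (d : Bool) (x y : ℚ) : Prop := if d then x < y else y < x

theorem lt'_trans {d : Bool} {x y z : ℚ} (h : lt' d x y) (h' : lt' d y z) : lt' d x z := by
  cases d
  · exact lt_trans (a := z) (b := y) (c := x) h' h
  · exact lt_trans (a := x) h h'

theorem exists_lt'_both (d : Bool) (x y : ℚ) : ∃ z, lt' d x z ∧ lt' d y z := by
  cases d
  · refine ⟨min x y - 1, ?_, ?_⟩
    · show min x y - 1 < x
      linarith [min_le_left x y]
    · show min x y - 1 < y
      linarith [min_le_right x y]
  · refine ⟨max x y + 1, ?_, ?_⟩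
    · show x < max x y + 1
      linarith [le_max_left x y]
    · show y < max x y + 1
      linarith [le_max_right x y]

theorem exists_lt'_finset (d : Bool) (s : Finset ℚ) : ∃ q, ∀ x ∈ s, lt' d x q := by
  induction s using Finset.induction_on with
  | empty => exact ⟨0, fun x hx => absurd hx (Finset.notMem_empty x)⟩
  | insert a s _ ih =>
    obtain ⟨q, hq⟩ := ih
    obtain ⟨z, hz1, hz2⟩ := exists_lt'_both d a q
    refine ⟨z, fun x hx => ?_⟩
    rcases Finset.mem_insert.1 hx with rfl | hx
    · exact hz1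
    · exact lt'_trans (hq x hx) hz2

open Classical in
/-- Rescale the part of the block `n` beyond `q` by the factor `c`. -/
noncomputable def scale (d : Bool) (n : ℕ) (q c : ℚ) (a : ℕ × ℚ) : ℕ × ℚ :=
  if a.1 = n ∧ lt' d q a.2 then (a.1, q + (a.2 - q) * c) else a

theorem lt'_scale {d : Bool} {q c x : ℚ} (hc : 0 < c) (h : lt' d q x) :
    lt' d q (q + (x - q) * c) := by
  cases d
  · have h' : x < q := h
    show q + (x - q) * c < q
    nlinarith [mul_pos (sub_pos.2 h') hc]
  · have h' : q < x := h
    show q < q + (x - q) * c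
    nlinarith [mul_pos (sub_pos.2 h') hc]

theorem scale_fst (d : Bool) (n : ℕ) (q c : ℚ) (a : ℕ × ℚ) : (scale d n q c a).1 = a.1 := by
  unfold scale
  split_ifs <;> rfl

theorem scale_scale {d : Bool} {n : ℕ} {q c : ℚ} (hc : 0 < c) (a : ℕ × ℚ) :
    scale d n q c⁻¹ (scale d n q c a) = a := by
  by_cases h : a.1 = n ∧ lt' d q a.2
  · have h1 : scale d n q c a = (a.1, q + (a.2 - q) * c) := by
      unfold scale; rw [if_pos h]
    rw [h1]
    unfold scale
    rw [if_pos ⟨h.1, lt'_scale hc h.2⟩]
    refine Prod.ext rfl ?_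
    show q + (q + (a.2 - q) * c - q) * c⁻¹ = a.2
    field_simp
    ring
  · have h1 : scale d n q c a = a := by
      unfold scale; rw [if_neg h]
    rw [h1, ← h1]
    unfold scale
    rw [if_neg h, if_neg h]

theorem scale_mono {d : Bool} {n : ℕ} {q c : ℚ} (hc : 0 < c) {a b : ℕ × ℚ} (hab : a.1 = b.1)
    (h : a.2 < b.2) : (scale d n q c a).2 < (scale d n q c b).2 := by
  by_cases ha : a.1 = n ∧ lt' d q a.2
  · have h1 : (scale d n q c a).2 = q + (a.2 - q) * c := by
      unfold scale; rw [if_pos ha]
    by_cases hb : b.1 = n ∧ lt' d q b.2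
    · have h2 : (scale d n q c b).2 = q + (b.2 - q) * c := by
        unfold scale; rw [if_pos hb]
      rw [h1, h2]
      nlinarith [mul_pos (sub_pos.2 h) hc]
    · have h2 : (scale d n q c b).2 = b.2 := by
        unfold scale; rw [if_neg hb]
      rw [h1, h2]
      have hb' : ¬ lt' d q b.2 := fun h' => hb ⟨hab ▸ ha.1, h'⟩
      cases d
      · have h3 : a.2 < q := ha.2
        have h4 : ¬ b.2 < q := hb'
        nlinarith [mul_pos (sub_pos.2 h3) hc]
      · have h3 : q < a.2 := ha.2
        have h4 : ¬ q < b.2 := hb'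
        exact absurd (h3.trans h) h4
  · have h1 : (scale d n q c a).2 = a.2 := by
      unfold scale; rw [if_neg ha]
    by_cases hb : b.1 = n ∧ lt' d q b.2
    · have h2 : (scale d n q c b).2 = q + (b.2 - q) * c := by
        unfold scale; rw [if_pos hb]
      rw [h1, h2]
      have ha' : ¬ lt' d q a.2 := fun h' => ha ⟨hab ▸ hb.1, h'⟩
      cases d
      · have h3 : b.2 < q := hb.2
        have h4 : ¬ a.2 < q := ha'
        exact absurd (h.trans h3) h4
      · have h3 : q < b.2 := hb.2
        have h4 : ¬ q < a.2 := ha'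
        nlinarith [mul_pos (sub_pos.2 h3) hc]
    · have h2 : (scale d n q c b).2 = b.2 := by
        unfold scale; rw [if_neg hb]
      rw [h1, h2]
      exact h

/-- Rescaling as a permutation. -/
noncomputable def scalePerm (d : Bool) (n : ℕ) (q : ℚ) {c : ℚ} (hc : 0 < c) :
    Equiv.Perm (ℕ × ℚ) where
  toFun := scale d n q c
  invFun := scale d n q c⁻¹
  left_inv := scale_scale hc
  right_inv := fun a => by
    have := scale_scale (d := d) (n := n) (q := q) (inv_pos.2 hc) a
    rwa [inv_inv] at this

theorem scalePerm_mem (d : Bool) (n : ℕ) (q : ℚ) {c : ℚ} (hc : 0 < c) :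
    scalePerm d n q hc ∈ blockGroup := by
  refine ⟨fun a => scale_fst d n q c a, fun a b hab => ⟨fun h => scale_mono hc hab h, fun h => ?_⟩⟩
  have h1 : scale d n q c⁻¹ (scale d n q c a) = a := scale_scale hc a
  have h2 : scale d n q c⁻¹ (scale d n q c b) = b := scale_scale hc b
  have := scale_mono (d := d) (n := n) (q := q) (inv_pos.2 hc)
    (a := scale d n q c a) (b := scale d n q c b) (by rw [scale_fst, scale_fst, hab]) h
  rwa [h1, h2] at this

/-- Homogeneity: an element of the block `n` beyond `q` can be moved to any other one by an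
element of the group fixing everything which is not in the block `n` beyond `q`. -/
theorem exists_move (d : Bool) (n : ℕ) (q r r' : ℚ) (hr : lt' d q r) (hr' : lt' d q r') :
    ∃ g : blockGroup, (∀ a : ℕ × ℚ, ¬ (a.1 = n ∧ lt' d q a.2) → (g : Equiv.Perm _) a = a) ∧
      (g : Equiv.Perm (ℕ × ℚ)) (n, r') = (n, r) := by
  have hc : 0 < (r - q) / (r' - q) := by
    cases d
    · have h1 : r < q := hr
      have h2 : r' < q := hr'
      exact div_pos_of_neg_of_neg (by linarith) (by linarith)
    · have h1 : q < r := hr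
      have h2 : q < r' := hr'
      exact div_pos (by linarith) (by linarith)
  refine ⟨⟨scalePerm d n q hc, scalePerm_mem d n q hc⟩, fun a ha => ?_, ?_⟩
  · show scale d n q _ a = a
    unfold scale
    rw [if_neg ha]
  · show scale d n q _ (n, r') = (n, r)
    unfold scale
    rw [if_pos ⟨rfl, hr'⟩]
    refine Prod.ext rfl ?_
    show q + (r' - q) * ((r - q) / (r' - q)) = r
    have : r' - q ≠ 0 := by
      cases d
      · have h2 : r' < q := hr'
        exact ne_of_lt (by linarith)
      · have h2 : q < r' := hr'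
        exact ne_of_gt (by linarith)
    field_simp
    ring

/-- The filter of the model. -/
def blockFilter : NormalFilter blockGroup := finSupp blockGroup

/-- The permutation model in which `PPP` fails. -/
abbrev Model : Type 1 := HS blockFilter

end Pool.Agent.Lib.MP_e864e9_lc
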