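import Pool.Agent.Lib.MP_e864e9_lc.Internal

/-!
# Permutation models satisfy the theory ZFA
-/

set_option autoImplicit false

namespace Pool.Agent.Lib.MP_e864e9_lc

/-- The relation symbols of the language of set theory with atoms. -/
inductive ZFARel : ℕ → Type
  /-- the unary relation symbol for being an atom -/
  | atom : ZFARel 1
  /-- the binary relation symbol for membership -/
  | mem : ZFARel 2

/-- The first-order language of set theory with atoms. -/
def LZFA : FirstOrder.Language.{0, 0} := ⟨fun _ => Empty, ZFARel⟩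

/-- The interpretation of the relation symbols. -/
def relInterp (M : Type 1) [MemStr M] : (n : ℕ) → ZFARel n → (Fin n → M) → Prop
  | _, .atom, v => MemStr.IsAtom (v 0)
  | _, .mem, v => v 0 ∈ v 1

/-- Every structure for set theory with atoms is a first-order structure. -/
instance strOf (M : Type 1) [MemStr M] : LZFA.Structure M where
  funMap := fun f _ => Empty.elim f
  RelMap := fun {n} r v => relInterp M n r v

/-- `M` satisfies the theory ZFA (Zermelo-Fraenkel set theory with a set of atoms), with the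
schemas of separation and replacement for all first-order formulas with parameters. -/
structure ModelsZFA (M : Type 1) [MemStr M] : Prop where
  /-- atoms have no members -/
  atom_empty : ∀ a x : M, MemStr.IsAtom a → ¬ x ∈ a
  /-- the atoms form a set -/
  atoms_set : ∃ a : M, IsSet a ∧ ∀ z : M, z ∈ a ↔ MemStr.IsAtom z
  /-- extensionality for sets -/
  extensionality : ∀ x y : M, IsSet x → IsSet y → (∀ z : M, z ∈ x ↔ z ∈ y) → x = y
  /-- the empty set exists -/
  empty : ∃ x : M, IsEmptySet x
  /-- pairing -/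
  pairing : ∀ x y : M, ∃ p : M, IsUPair p x y
  /-- union -/
  union : ∀ x : M, ∃ u : M, IsSet u ∧ ∀ z : M, z ∈ u ↔ ∃ y ∈ x, z ∈ y
  /-- power set -/
  power : ∀ x : M, ∃ p : M, IsSet p ∧ ∀ z : M, z ∈ p ↔ Sub z x
  /-- infinity -/
  infinity : ∃ w : M, IsInductive w
  /-- foundation -/
  foundation : ∀ x : M, (∃ y : M, y ∈ x) → ∃ y ∈ x, ∀ z ∈ x, ¬ z ∈ y
  /-- separation: `v` lists the parameters, and the last variable is the separated one -/
  separation : ∀ (n : ℕ) (φ : LZFA.Formula (Fin n ⊕ Fin 1)) (v : Fin n → M) (x : M),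
    ∃ y : M, IsSet y ∧ ∀ z : M, z ∈ y ↔ z ∈ x ∧ φ.Realize (Sum.elim v ![z])
  /-- replacement: `v` lists the parameters, and the formula is functional in the last variable -/
  replacement : ∀ (n : ℕ) (φ : LZFA.Formula (Fin n ⊕ Fin 2)) (v : Fin n → M) (x : M),
    (∀ y ∈ x, ∃! z : M, φ.Realize (Sum.elim v ![y, z])) →
    ∃ w : M, IsSet w ∧ ∀ z : M, z ∈ w ↔ ∃ y ∈ x, φ.Realize (Sum.elim v ![y, z])

namespace HS

variable {A : Type} {G : Subgroup (Equiv.Perm A)} {F : NormalFilter G}

/-- The action of the group is by automorphisms of the first-order structure. -/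
def autEquiv (g : G) : LZFA.Equiv (HS F) (HS F) where
  toEquiv := MulAction.toPerm g
  map_fun' := fun f _ => Empty.elim f
  map_rel' := fun {n} r v => by
    cases r with
    | atom => exact isAtom_smul_iff g
    | mem => exact smul_mem_smul_iff g

theorem realize_smul {α : Type} (φ : LZFA.Formula α) (g : G) (v : α → HS F) :
    φ.Realize (fun i => g • v i) ↔ φ.Realize v :=
  FirstOrder.Language.StrongHomClass.realize_formula (autEquiv (F := F) g) φ

theorem params_mem {n : ℕ} (v : Fin n → HS F) :
    ∃ H ∈ F.sets, ∀ g ∈ H, ∀ i, g • v i = v i := by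
  induction n with
  | zero => exact ⟨⊤, F.top_mem, fun g _ i => i.elim0⟩
  | succ n ih =>
    obtain ⟨H, hH, h⟩ := ih (fun i => v i.castSucc)
    refine ⟨H ⊓ MulAction.stabilizer G (v (Fin.last n)), F.inter_mem hH (stab_mem _), ?_⟩
    rintro g ⟨h1, h2⟩ i
    refine Fin.lastCases ?_ (fun i => ?_) i
    · exact h2
    · exact h g h1 i

/-- Every permutation model satisfies ZFA. -/
theorem modelsZFA (F : NormalFilter G) : ModelsZFA (HS F) where
  atom_empty := fun a x ha h => by
    obtain ⟨b, hb⟩ := VA.exists_atom ha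
    have : VA.Mem x.1 a.1 := h
    rw [hb] at this
    exact VA.not_mem_atom b _ this
  atoms_set := by
    obtain ⟨x, hx, h⟩ := exists_fam (F := F) (atom F) F.top_mem (fun g _ a => ⟨_, smul_atom g a⟩)
    refine ⟨x, hx, fun z => (h z).trans ⟨?_, fun hz => ?_⟩⟩
    · rintro ⟨a, rfl⟩
      exact isAtom_atom a
    · obtain ⟨b, hb⟩ := VA.exists_atom hz
      exact ⟨b, Subtype.ext hb⟩
  extensionality := fun x y hx hy h => ext hx hy h
  empty := exists_empty F
  pairing := exists_upair
  union := fun x => by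
    have := small_mem x
    have h2 : ∀ y : HS F, Small.{0} {z : HS F | z ∈ y} := small_mem
    obtain ⟨u, hu, h⟩ := comp (F := F) {z | ∃ y ∈ x, z ∈ y} (by
      refine small_of_surjective (α := Σ y : {y : HS F | y ∈ x}, {z : HS F | z ∈ y.1})
        (f := fun p => (⟨p.2.1, p.1.1, p.1.2, p.2.2⟩ : {z : HS F | ∃ y ∈ x, z ∈ y})) ?_
      rintro ⟨z, y, hy, hz⟩
      exact ⟨⟨⟨y, hy⟩, ⟨z, hz⟩⟩, rfl⟩) (stab_mem x) (by
      rintro g hg z ⟨y, hy, hz⟩
      have hg : g • x = x := hg
      refine ⟨g • y, ?_, (smul_mem_smul_iff g).2 hz⟩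
      rw [← hg, smul_mem_smul_iff]
      exact hy)
    exact ⟨u, hu, h⟩
  power := fun x => by
    obtain ⟨p, hp, h⟩ := comp (F := F) _ (small_subset x) (stab_mem x) (by
      rintro g hg z ⟨h1, h2⟩
      have hg : g • x = x := hg
      refine ⟨fun h' => h1 ((isAtom_smul_iff g).1 h'), fun w hw => ?_⟩
      rw [mem_smul_iff] at hw
      rw [← hg, mem_smul_iff]
      exact h2 _ hw)
    exact ⟨p, hp, h⟩
  infinity := by
    obtain ⟨_, w, hw, -⟩ := exists_omega F
    exact ⟨w, hw.1⟩
  foundation := fun x ⟨y, hy⟩ => by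
    obtain ⟨m, hm, h⟩ := (mem_wf (F := F)).has_min {z | z ∈ x} ⟨y, hy⟩
    exact ⟨m, hm, fun z hz => h z hz⟩
  separation := fun n φ v x => by
    obtain ⟨H, hH, hv⟩ := params_mem v
    refine sep x (fun z => φ.Realize (Sum.elim v ![z])) hH ?_
    intro g hg z hz
    rw [← realize_smul φ g] at hz
    convert hz using 1
    funext i
    rcases i with i | i
    · exact (hv g hg i).symm
    · fin_cases i
      rfl
  replacement := fun n φ v x hx => by
    obtain ⟨H, hH, hv⟩ := params_mem v
    have := small_mem x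
    have hinv : ∀ g ∈ H, ∀ y z : HS F, φ.Realize (Sum.elim v ![y, z]) →
        φ.Realize (Sum.elim v ![g • y, g • z]) := by
      intro g hg y z hz
      rw [← realize_smul φ g] at hz
      convert hz using 1
      funext i
      rcases i with i | i
      · exact (hv g hg i).symm
      · fin_cases i <;> rfl
    refine comp (F := F) {z | ∃ y ∈ x, φ.Realize (Sum.elim v ![y, z])} ?_
      (F.inter_mem (stab_mem x) hH) ?_
    · choose f hf hf' using hx
      refine small_of_surjective (α := {y : HS F | y ∈ x})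
        (f := fun y => (⟨f y.1 y.2, y.1, y.2, hf y.1 y.2⟩ :
          {z : HS F | ∃ y ∈ x, φ.Realize (Sum.elim v ![y, z])})) ?_
      rintro ⟨z, y, hy, hz⟩
      exact ⟨⟨y, hy⟩, Subtype.ext (hf' y hy z hz).symm⟩
    · rintro g ⟨hg1, hg2⟩ z ⟨y, hy, hz⟩
      have hg1 : g • x = x := hg1
      refine ⟨g • y, ?_, hinv g hg2 y z hz⟩
      rw [← hg1, smul_mem_smul_iff]
      exact hy

end HS

end Pool.Agent.Lib.MP_e864e9_lc
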