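import Pool.Agent.Lib.MP_e864e9_lc.ZFA

/-!
# Permutation models

`NormalFilter G` is the type of normal filters of subgroups of a group `G` of permutations of the
atoms, and `HS F` is the class of the hereditarily symmetric elements of `VA A`.
-/

set_option autoImplicit false

namespace Pool.Agent.Lib.MP_e864e9_lc

/-- A normal filter of subgroups of a group `G` of permutations of the set `A` of atoms. -/
structure NormalFilter {A : Type} (G : Subgroup (Equiv.Perm A)) where
  /-- the collection of subgroups which belong to the filter -/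
  sets : Set (Subgroup G)
  /-- the whole group belongs to the filter -/
  top_mem : ⊤ ∈ sets
  /-- the filter is closed under larger subgroups -/
  mem_of_le : ∀ {H K : Subgroup G}, H ∈ sets → H ≤ K → K ∈ sets
  /-- the filter is closed under intersections of two subgroups -/
  inter_mem : ∀ {H K : Subgroup G}, H ∈ sets → K ∈ sets → H ⊓ K ∈ sets
  /-- the filter is closed under conjugation -/
  conj_mem : ∀ (g : G) {H : Subgroup G}, H ∈ sets → H.map (MulAut.conj g).toMonoidHom ∈ sets
  /-- the stabilizer of each atom belongs to the filter -/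
  stab_atom_mem : ∀ a : A, MulAction.stabilizer G a ∈ sets

/-- A structure for the language of set theory with atoms: a membership relation together with
the predicate of being an atom. -/
class MemStr (M : Type 1) extends Membership M M where
  /-- being an atom -/
  IsAtom : M → Prop

variable {A : Type} {G : Subgroup (Equiv.Perm A)}

/-- An element `x` of the universe is symmetric when its stabilizer belongs to the filter. -/
def Symm (F : NormalFilter G) (x : VA A) : Prop := MulAction.stabilizer G x ∈ F.sets

/-- An element `x` of the universe is hereditarily symmetric when `x`, the members of `x`, the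
members of members of `x`, and so on, are all symmetric. -/
def HSymm (F : NormalFilter G) (x : VA A) : Prop :=
  ∀ y, Relation.ReflTransGen VA.Mem y x → Symm F y

/-- The permutation model determined by the group `G` of permutations of the atoms and the normal
filter `F` of subgroups of `G`: the class of hereditarily symmetric elements of the universe. -/
def HS (F : NormalFilter G) : Type 1 := {x : VA A // HSymm F x}

/-- Membership and atoms of a permutation model are inherited from the universe. -/
instance (F : NormalFilter G) : MemStr (HS F) where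
  mem y x := VA.Mem x.1 y.1
  IsAtom x := VA.IsAtom x.1

variable {F : NormalFilter G}

theorem smul_def (g : G) (x : VA A) : g • x = (g : Equiv.Perm A) • x := rfl

theorem HSymm.symm {x : VA A} (h : HSymm F x) : Symm F x := h x Relation.ReflTransGen.refl

theorem HSymm.of_mem {x y : VA A} (h : HSymm F x) (hy : VA.Mem y x) : HSymm F y :=
  fun z hz => h z (hz.tail hy)

theorem hSymm_iff {x : VA A} : HSymm F x ↔ Symm F x ∧ ∀ y, VA.Mem y x → HSymm F y := by
  refine ⟨fun h => ⟨h.symm, fun y hy => h.of_mem hy⟩, fun h y hy => ?_⟩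
  rcases Relation.ReflTransGen.cases_tail hy with rfl | ⟨z, hz, hzx⟩
  · exact h.1
  · exact h.2 z hzx y hz

theorem Symm.smul {x : VA A} (h : Symm F x) (g : G) : Symm F (g • x) := by
  have := F.conj_mem g h
  rwa [← MulAction.stabilizer_smul_eq_stabilizer_map_conj] at this

theorem HSymm.smul {x : VA A} (h : HSymm F x) (g : G) : HSymm F (g • x) := by
  intro y hy
  have h0 : ∀ w : VA A, Relation.ReflTransGen VA.Mem y w →
      Relation.ReflTransGen VA.Mem (g⁻¹ • y) (g⁻¹ • w) := by
    intro w hw
    induction hw with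
    | refl => exact Relation.ReflTransGen.refl
    | tail _ hbc ih => exact ih.tail (VA.smul_mem_smul hbc)
  have h1 := h0 _ hy
  rw [inv_smul_smul] at h1
  have := (h _ h1).smul g
  rwa [smul_inv_smul] at this

/-- The group acts on the permutation model. -/
instance : MulAction G (HS F) where
  smul g x := ⟨g • x.1, x.2.smul g⟩
  one_smul x := Subtype.ext (one_smul G x.1)
  mul_smul g h x := Subtype.ext (mul_smul g h x.1)

namespace HS

theorem smul_val (g : G) (x : HS F) : (g • x).1 = g • x.1 := rfl

theorem mem_def {x y : HS F} : x ∈ y ↔ VA.Mem x.1 y.1 := Iff.rfl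

theorem isAtom_def {x : HS F} : MemStr.IsAtom x ↔ VA.IsAtom x.1 := Iff.rfl

theorem smul_mem_smul_iff (g : G) {x y : HS F} : g • x ∈ g • y ↔ x ∈ y :=
  VA.mem_smul_iff _ _ _

theorem mem_smul_iff (g : G) {x y : HS F} : x ∈ g • y ↔ g⁻¹ • x ∈ y := by
  rw [← smul_mem_smul_iff g (x := g⁻¹ • x), smul_inv_smul]

theorem isAtom_smul_iff (g : G) {x : HS F} : MemStr.IsAtom (g • x) ↔ MemStr.IsAtom x :=
  VA.isAtom_smul _ _

theorem stab_mem (x : HS F) : MulAction.stabilizer G x ∈ F.sets := by
  refine F.mem_of_le x.2.symm fun g hg => ?_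
  exact Subtype.ext hg

/-- Extensionality in a permutation model. -/
theorem ext {x y : HS F} (hx : ¬ MemStr.IsAtom x) (hy : ¬ MemStr.IsAtom y)
    (h : ∀ z : HS F, z ∈ x ↔ z ∈ y) : x = y := by
  apply Subtype.ext
  apply VA.ext hx hy
  intro z
  constructor
  · intro hz
    exact (h ⟨z, x.2.of_mem hz⟩).1 hz
  · intro hz
    exact (h ⟨z, y.2.of_mem hz⟩).2 hz

/-- Comprehension for small invariant classes. -/
theorem comp (S : Set (HS F)) (hS : Small.{0} S) {H : Subgroup G} (hH : H ∈ F.sets)
    (inv : ∀ g ∈ H, ∀ z ∈ S, g • z ∈ S) :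
    ∃ x : HS F, ¬ MemStr.IsAtom x ∧ ∀ z : HS F, z ∈ x ↔ z ∈ S := by
  let f : Shrink.{0} S → VA A := fun i => ((equivShrink S).symm i).1.1
  have hf : ∀ z : VA A, VA.Mem z (VA.ofFam f) ↔ ∃ w : HS F, w ∈ S ∧ z = w.1 := by
    intro z
    rw [VA.mem_ofFam]
    constructor
    · rintro ⟨i, rfl⟩
      exact ⟨((equivShrink S).symm i).1, ((equivShrink S).symm i).2, rfl⟩
    · rintro ⟨w, hw, rfl⟩
      refine ⟨equivShrink S ⟨w, hw⟩, ?_⟩
      simp [f]
  have hsym : HSymm F (VA.ofFam f) := by
    rw [hSymm_iff]
    constructor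
    · refine F.mem_of_le hH fun g hg => ?_
      rw [MulAction.mem_stabilizer_iff]
      apply VA.ext
      · rw [smul_def, VA.isAtom_smul]; exact VA.not_isAtom_ofFam _
      · exact VA.not_isAtom_ofFam _
      · intro z
        constructor
        · intro hz
          have h1 : VA.Mem (g⁻¹ • z) (VA.ofFam f) := by
            have := VA.smul_mem_smul (π := (g⁻¹ : G)) hz
            rwa [← smul_def, ← smul_def, inv_smul_smul] at this
          obtain ⟨w, hw, hzw⟩ := (hf _).1 h1
          refine (hf z).2 ⟨g • w, inv g hg w hw, ?_⟩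
          rw [smul_val, ← hzw, smul_inv_smul]
        · intro hz
          obtain ⟨w, hw, rfl⟩ := (hf _).1 hz
          have h1 : VA.Mem ((g⁻¹ • w).1) (VA.ofFam f) :=
            (hf _).2 ⟨g⁻¹ • w, inv _ (H.inv_mem hg) w hw, rfl⟩
          have h2 := VA.smul_mem_smul (π := (g : G)) h1
          rw [← smul_def, ← smul_def, smul_val, smul_inv_smul] at h2
          exact h2
    · intro y hy
      obtain ⟨w, -, rfl⟩ := (hf _).1 hy
      exact w.2
  refine ⟨⟨VA.ofFam f, hsym⟩, VA.not_isAtom_ofFam f, fun z => ?_⟩
  refine (hf z.1).trans ⟨?_, fun h => ⟨z, h, rfl⟩⟩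
  rintro ⟨w, hw, hzw⟩
  rwa [Subtype.ext hzw]

theorem small_mem (x : HS F) : Small.{0} {z : HS F | z ∈ x} := by
  rcases VA.cases_rep x.1 with ⟨a, ha⟩ | ⟨ι, f, hf⟩
  · have : {z : HS F | z ∈ x} = ∅ := by
      ext z
      simp only [Set.mem_ofPred_eq, Set.mem_empty_iff_false, iff_false, mem_def, ha]
      exact VA.not_mem_atom a z.1
    rw [this]
    infer_instance
  · have : Function.Injective (fun z : {z : HS F | z ∈ x} =>
        Classical.choose ((VA.mem_ofFam f z.1.1).1 (hf ▸ z.2))) := by
      intro z w hzw
      have hz := Classical.choose_spec ((VA.mem_ofFam f z.1.1).1 (hf ▸ z.2))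
      have hw := Classical.choose_spec ((VA.mem_ofFam f w.1.1).1 (hf ▸ w.2))
      apply Subtype.ext
      apply Subtype.ext
      rw [hz, hw]
      exact congrArg f hzw
    exact small_of_injective this

theorem small_subset (x : HS F) :
    Small.{0} {z : HS F | ¬ MemStr.IsAtom z ∧ ∀ w, w ∈ z → w ∈ x} := by
  have := small_mem x
  have key : Function.Injective (fun z : {z : HS F | ¬ MemStr.IsAtom z ∧ ∀ w, w ∈ z → w ∈ x} =>
      ({w : {w : HS F | w ∈ x} | w.1 ∈ z.1} : Set {w : HS F | w ∈ x})) := by
    intro z w hzw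
    apply Subtype.ext
    apply ext z.2.1 w.2.1
    intro t
    constructor
    · intro ht
      have : (⟨t, z.2.2 t ht⟩ : {w : HS F | w ∈ x}) ∈
          ({w : {w : HS F | w ∈ x} | w.1 ∈ z.1} : Set {w : HS F | w ∈ x}) := ht
      simp only at hzw
      rw [hzw] at this
      exact this
    · intro ht
      have : (⟨t, w.2.2 t ht⟩ : {w : HS F | w ∈ x}) ∈
          ({v : {w : HS F | w ∈ x} | v.1 ∈ w.1} : Set {w : HS F | w ∈ x}) := ht
      simp only at hzw
      rw [← hzw] at this
      exact this
  have : Small.{0} (Set {w : HS F | w ∈ x}) :=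
    small_of_injective (f := fun s : Set {w : HS F | w ∈ x} =>
      (equivShrink {w : HS F | w ∈ x}) '' s)
      (Set.image_injective.2 (equivShrink _).injective)
  exact small_of_injective key

/-- Separation for invariant predicates. -/
theorem sep (x : HS F) (P : HS F → Prop) {H : Subgroup G} (hH : H ∈ F.sets)
    (inv : ∀ g ∈ H, ∀ z, P z → P (g • z)) :
    ∃ y : HS F, ¬ MemStr.IsAtom y ∧ ∀ z : HS F, z ∈ y ↔ z ∈ x ∧ P z := by
  have := small_mem x
  refine comp {z | z ∈ x ∧ P z} (small_of_injective
    (f := fun z : {z | z ∈ x ∧ P z} => (⟨z.1, z.2.1⟩ : {z : HS F | z ∈ x})) ?_)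
    (F.inter_mem (stab_mem x) hH) ?_
  · intro z w h
    exact Subtype.ext (congrArg (fun t : {z : HS F | z ∈ x} => t.1) h)
  · rintro g ⟨hg1, hg2⟩ z ⟨hz1, hz2⟩
    refine ⟨?_, inv g hg2 z hz2⟩
    have : g • x = x := hg1
    rw [← this, smul_mem_smul_iff]
    exact hz1

end HS

end Pool.Agent.Lib.MP_e864e9_lc
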