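import Mathlib

/-!
# The universe of sets over a collection of atoms, and permutation models

`PreVA A` is the type of well-founded trees whose leaves may be atoms from `A`; `VA A` is its
quotient by extensional equality, that is the universe of sets with atoms over `A`.
-/

set_option autoImplicit false

namespace Pool.Agent.Lib.MP_e864e9_lc

/-- Pre-sets with atoms: a pre-set is an atom `a : A`, or a family of pre-sets indexed by a small
type (representing the set of the members of that family). -/
inductive PreVA (A : Type) : Type 1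
  | atom : A → PreVA A
  | mk : (ι : Type) → (ι → PreVA A) → PreVA A

namespace PreVA

variable {A : Type}

/-- Extensional equality of pre-sets: an atom is only equal to itself, and two families are equal
when each member of one is equal to a member of the other. -/
def Equiv : PreVA A → PreVA A → Prop
  | .atom a, .atom b => a = b
  | .atom _, .mk _ _ => False
  | .mk _ _, .atom _ => False
  | .mk _ f, .mk _ g => (∀ a, ∃ b, Equiv (f a) (g b)) ∧ (∀ b, ∃ a, Equiv (f a) (g b))

theorem Equiv.refl : ∀ x : PreVA A, Equiv x x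
  | .atom _ => rfl
  | .mk _ f => ⟨fun a => ⟨a, Equiv.refl (f a)⟩, fun a => ⟨a, Equiv.refl (f a)⟩⟩

theorem Equiv.symm : ∀ {x y : PreVA A}, Equiv x y → Equiv y x
  | .atom _, .atom _, h => Eq.symm h
  | .atom _, .mk _ _, h => h.elim
  | .mk _ _, .atom _, h => h.elim
  | .mk _ _, .mk _ _, h =>
    ⟨fun b => let ⟨a, ha⟩ := h.2 b; ⟨a, Equiv.symm ha⟩,
     fun a => let ⟨b, hb⟩ := h.1 a; ⟨b, Equiv.symm hb⟩⟩

theorem Equiv.trans : ∀ {x y z : PreVA A}, Equiv x y → Equiv y z → Equiv x z
  | .atom _, .atom _, .atom _, h, k => Eq.trans h k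
  | .atom _, .atom _, .mk _ _, _, k => k.elim
  | .atom _, .mk _ _, _, h, _ => h.elim
  | .mk _ _, .atom _, _, h, _ => h.elim
  | .mk _ _, .mk _ _, .atom _, _, k => k.elim
  | .mk _ _, .mk _ _, .mk _ _, h, k =>
    ⟨fun a => let ⟨b, hb⟩ := h.1 a; let ⟨c, hc⟩ := k.1 b; ⟨c, Equiv.trans hb hc⟩,
     fun c => let ⟨b, hb⟩ := k.2 c; let ⟨a, ha⟩ := h.2 b; ⟨a, Equiv.trans ha hb⟩⟩

instance setoid (A : Type) : Setoid (PreVA A) :=
  ⟨Equiv, Equiv.refl, Equiv.symm, Equiv.trans⟩

/-- Membership: `x` is a member of a family when it is extensionally equal to an entry of it; an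
atom has no members. -/
def Mem (x : PreVA A) : PreVA A → Prop
  | .atom _ => False
  | .mk _ g => ∃ b, Equiv x (g b)

theorem Mem.congr {x x' y y' : PreVA A} (hx : Equiv x x') (hy : Equiv y y') :
    Mem x y ↔ Mem x' y' := by
  cases y with
  | atom a =>
    cases y' with
    | atom b => exact Iff.rfl
    | mk κ g => exact hy.elim
  | mk ι f =>
    cases y' with
    | atom b => exact hy.elim
    | mk κ g =>
      constructor
      · rintro ⟨b, hb⟩
        obtain ⟨c, hc⟩ := hy.1 b
        exact ⟨c, (hx.symm.trans hb).trans hc⟩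
      · rintro ⟨c, hc⟩
        obtain ⟨b, hb⟩ := hy.2 c
        exact ⟨b, (hx.trans hc).trans hb.symm⟩

/-- Being an atom. -/
def IsAtom : PreVA A → Prop
  | .atom _ => True
  | .mk _ _ => False

theorem IsAtom.congr {x y : PreVA A} (h : Equiv x y) : IsAtom x ↔ IsAtom y := by
  cases x <;> cases y <;> first | exact Iff.rfl | exact h.elim

/-- The action of a permutation of the atoms on pre-sets. -/
def perm (π : _root_.Equiv.Perm A) : PreVA A → PreVA A
  | .atom a => .atom (π a)
  | .mk ι f => .mk ι fun i => perm π (f i)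

theorem perm_congr (π : _root_.Equiv.Perm A) :
    ∀ {x y : PreVA A}, Equiv x y → Equiv (perm π x) (perm π y)
  | .atom _, .atom _, h => congrArg π h
  | .atom _, .mk _ _, h => h.elim
  | .mk _ _, .atom _, h => h.elim
  | .mk _ _, .mk _ _, h =>
    ⟨fun a => let ⟨b, hb⟩ := h.1 a; ⟨b, perm_congr π hb⟩,
     fun b => let ⟨a, ha⟩ := h.2 b; ⟨a, perm_congr π ha⟩⟩

theorem perm_one : ∀ x : PreVA A, perm 1 x = x
  | .atom _ => rfl
  | .mk ι f => congrArg (PreVA.mk ι) (funext fun i => perm_one (f i))

theorem perm_mul (π σ : _root_.Equiv.Perm A) : ∀ x : PreVA A,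
    perm (π * σ) x = perm π (perm σ x)
  | .atom _ => rfl
  | .mk ι f => congrArg (PreVA.mk ι) (funext fun i => perm_mul π σ (f i))

end PreVA

/-- The universe of sets with atoms over `A`: pre-sets up to extensional equality. -/
def VA (A : Type) : Type 1 := Quotient (PreVA.setoid A)

namespace VA

variable {A : Type}

/-- The membership relation of `VA A`. -/
def Mem (x y : VA A) : Prop :=
  Quotient.liftOn₂ x y PreVA.Mem fun _ _ _ _ h k => propext (PreVA.Mem.congr h k)

/-- Being an atom of `VA A`. -/
def IsAtom (x : VA A) : Prop :=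
  Quotient.liftOn x PreVA.IsAtom fun _ _ h => propext (PreVA.IsAtom.congr h)

/-- The atom `a`, as an element of `VA A`. -/
def atom (a : A) : VA A := Quotient.mk _ (.atom a)

/-- The set of the values of a small family of elements of `VA A`. -/
noncomputable def ofFam {ι : Type} (f : ι → VA A) : VA A :=
  Quotient.mk _ (.mk ι fun i => (f i).out)

theorem isAtom_atom (a : A) : IsAtom (atom a) := trivial

theorem not_isAtom_ofFam {ι : Type} (f : ι → VA A) : ¬ IsAtom (ofFam f) := fun h => h

theorem not_mem_atom (a : A) (x : VA A) : ¬ Mem x (atom a) := by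
  refine Quotient.inductionOn x fun x h => h

theorem mem_ofFam {ι : Type} (f : ι → VA A) (x : VA A) : Mem x (ofFam f) ↔ ∃ i, x = f i := by
  refine Quotient.inductionOn x fun x => ?_
  constructor
  · rintro ⟨i, hi⟩
    refine ⟨i, ?_⟩
    rw [← Quotient.out_eq (f i)]
    exact Quotient.sound hi
  · rintro ⟨i, hi⟩
    refine ⟨i, ?_⟩
    exact Quotient.exact (hi.trans (Quotient.out_eq (f i)).symm)

theorem atom_injective : Function.Injective (atom : A → VA A) := fun _ _ h =>
  (Quotient.exact h : PreVA.Equiv _ _)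

/-- Every element is an atom or the set of values of a small family. -/
theorem cases_rep (x : VA A) : (∃ a, x = atom a) ∨ ∃ (ι : Type) (f : ι → VA A), x = ofFam f := by
  refine Quotient.inductionOn x fun x => ?_
  cases x with
  | atom a => exact Or.inl ⟨a, rfl⟩
  | mk ι f =>
    refine Or.inr ⟨ι, fun i => Quotient.mk _ (f i), Quotient.sound ?_⟩
    refine ⟨fun i => ⟨i, ?_⟩, fun i => ⟨i, ?_⟩⟩
    · exact (Quotient.mk_out (f i) : PreVA.Equiv _ _).symm
    · exact (Quotient.mk_out (f i) : PreVA.Equiv _ _).symm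

theorem exists_fam {x : VA A} (h : ¬ IsAtom x) : ∃ (ι : Type) (f : ι → VA A), x = ofFam f := by
  rcases cases_rep x with ⟨a, rfl⟩ | h'
  · exact absurd (isAtom_atom a) h
  · exact h'

theorem exists_atom {x : VA A} (h : IsAtom x) : ∃ a, x = atom a := by
  rcases cases_rep x with h' | ⟨ι, f, rfl⟩
  · exact h'
  · exact absurd h (not_isAtom_ofFam f)

/-- Extensionality for sets. -/
theorem ext {x y : VA A} (hx : ¬ IsAtom x) (hy : ¬ IsAtom y) (h : ∀ z, Mem z x ↔ Mem z y) :
    x = y := by
  induction x using Quotient.inductionOn with | _ x => ?_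
  induction y using Quotient.inductionOn with | _ y => ?_
  cases x with
  | atom a => exact absurd trivial hx
  | mk ι f =>
    cases y with
    | atom a => exact absurd trivial hy
    | mk κ g =>
      refine Quotient.sound ⟨fun i => ?_, fun j => ?_⟩
      · exact (h (Quotient.mk _ (f i))).1 ⟨i, PreVA.Equiv.refl _⟩
      · obtain ⟨i, hi⟩ := (h (Quotient.mk _ (g j))).2 ⟨j, PreVA.Equiv.refl _⟩
        exact ⟨i, hi.symm⟩

/-- Membership is well-founded. -/
theorem mem_wf : WellFounded (Mem : VA A → VA A → Prop) := by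
  constructor
  intro x
  refine Quotient.inductionOn x fun x => ?_
  induction x with
  | atom a =>
    refine ⟨_, fun y hy => (not_mem_atom a y hy).elim⟩
  | mk ι f ih =>
    refine ⟨_, fun y hy => ?_⟩
    induction y using Quotient.inductionOn with | _ y => ?_
    obtain ⟨i, hi⟩ := hy
    have : (Quotient.mk _ y : VA A) = Quotient.mk _ (f i) := Quotient.sound hi
    rw [this]
    exact ih i

/-- The action of the permutations of the atoms on the universe. -/
instance : MulAction (Equiv.Perm A) (VA A) where
  smul π x := Quotient.map (PreVA.perm π) (fun _ _ h => PreVA.perm_congr π h) x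
  one_smul x := by
    refine Quotient.inductionOn x fun x => ?_
    exact congrArg (Quotient.mk _) (PreVA.perm_one x)
  mul_smul π σ x := by
    refine Quotient.inductionOn x fun x => ?_
    exact congrArg (Quotient.mk _) (PreVA.perm_mul π σ x)

theorem smul_atom (π : Equiv.Perm A) (a : A) : π • (atom a : VA A) = atom (π a) := rfl

theorem isAtom_smul (π : Equiv.Perm A) (x : VA A) : IsAtom (π • x) ↔ IsAtom x := by
  refine Quotient.inductionOn x fun x => ?_
  cases x <;> exact Iff.rfl

theorem smul_mem_smul {π : Equiv.Perm A} {x y : VA A} (h : Mem x y) : Mem (π • x) (π • y) := by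
  induction x using Quotient.inductionOn with | _ x => ?_
  induction y using Quotient.inductionOn with | _ y => ?_
  cases y with
  | atom a => exact h.elim
  | mk ι f =>
    obtain ⟨i, hi⟩ := h
    exact ⟨i, PreVA.perm_congr π hi⟩

theorem mem_smul_iff (π : Equiv.Perm A) (x y : VA A) : Mem (π • x) (π • y) ↔ Mem x y := by
  refine ⟨fun h => ?_, smul_mem_smul⟩
  have := smul_mem_smul (π := π⁻¹) h
  rwa [inv_smul_smul, inv_smul_smul] at this

theorem smul_ofFam (π : Equiv.Perm A) {ι : Type} (f : ι → VA A) :
    π • ofFam f = ofFam fun i => π • f i := by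
  apply ext
  · rw [isAtom_smul]; exact not_isAtom_ofFam _
  · exact not_isAtom_ofFam _
  · intro z
    obtain ⟨w, rfl⟩ : ∃ w, z = π • w := ⟨π⁻¹ • z, by rw [smul_inv_smul]⟩
    rw [mem_smul_iff, mem_ofFam, mem_ofFam]
    constructor
    · rintro ⟨i, rfl⟩; exact ⟨i, rfl⟩
    · rintro ⟨i, hi⟩; exact ⟨i, smul_left_cancel π hi⟩

end VA

end Pool.Agent.Lib.MP_e864e9_lc
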